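import Mathlib

namespace Pool.Agent.Lib.MP_90cf6f_nt

open WeierstrassCurve WeierstrassCurve.Affine

/-- The curve `y ^ 2 = x ^ 3 + t x` over the rationals. -/
def curve (t : ℚ) : WeierstrassCurve ℚ := ⟨0, 0, 0, t, 0⟩

/-- The set `C_Q`. -/
def CQ (Q : ℕ) : Set ℕ :=
  {a | 1 ≤ a ∧ ∀ i : ℕ, 0 < Module.rank ℤ (curve ((a : ℚ) * (Q : ℚ) ^ i)).toAffine.Point}

/-- A factorisation `t = x x'` with `x + x'` a nonzero square. -/
def Good (t : ℚ) : Prop :=
  t ≠ 0 ∧ ∃ x x' z : ℚ, x * x' = t ∧ x + x' = z ^ 2 ∧ z ≠ 0 ∧ x ≠ x'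

theorem val_phi {u : ℚ} (h0 : u ≠ 0) (h1 : u ≠ 1) (h2 : u ≠ -1) :
    padicValRat 2 ((u - 1) ^ 4 / (16 * u * (u + 1) ^ 2)) ≠ 0 ∧
    (padicValRat 2 u ≠ 0 →
      padicValRat 2 ((u - 1) ^ 4 / (16 * u * (u + 1) ^ 2)) = -4 - |padicValRat 2 u|) := by
  have a0 : u - 1 ≠ 0 := sub_ne_zero.2 h1
  have b0 : u + 1 ≠ 0 := fun h => h2 (by linarith)
  have v2 : padicValRat 2 (2 : ℚ) = 1 := by
    simpa using padicValRat.self (p := 2) (by norm_num)
  have v16 : padicValRat 2 (16 : ℚ) = 4 := by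
    rw [show (16 : ℚ) = 2 ^ 4 by norm_num, padicValRat.pow, v2]; norm_num
  have e : padicValRat 2 ((u - 1) ^ 4 / (16 * u * (u + 1) ^ 2)) =
      4 * padicValRat 2 (u - 1) - (4 + padicValRat 2 u + 2 * padicValRat 2 (u + 1)) := by
    rw [padicValRat.div (by positivity) (by positivity), padicValRat.mul (by positivity)
      (by positivity), padicValRat.mul (by norm_num) h0, padicValRat.pow, padicValRat.pow, v16]
    norm_num
  have vm : padicValRat 2 (-1 : ℚ) = 0 := by simp
  have s1 : padicValRat 2 u ≠ 0 → padicValRat 2 (u - 1) = min (padicValRat 2 u) 0 := fun h => by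
    rw [sub_eq_add_neg, padicValRat.add_eq_min (by rwa [← sub_eq_add_neg]) h0 (by norm_num)
      (by rwa [vm]), vm]
  have s2 : padicValRat 2 u ≠ 0 → padicValRat 2 (u + 1) = min (padicValRat 2 u) 0 := fun h => by
    rw [padicValRat.add_eq_min b0 h0 (by norm_num) (by simpa using h), padicValRat.one]
  have key : padicValRat 2 u ≠ 0 →
      padicValRat 2 ((u - 1) ^ 4 / (16 * u * (u + 1) ^ 2)) = -4 - |padicValRat 2 u| := by
    intro h
    rw [e, s1 h, s2 h]
    rcases le_total (padicValRat 2 u) 0 with k | k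
    · rw [min_eq_left k, abs_of_nonpos k]; ring
    · rw [min_eq_right k, abs_of_nonneg k]; ring
  refine ⟨?_, key⟩
  by_cases h : padicValRat 2 u = 0
  · rw [e, h]
    intro k
    have d : (u + 1) + -(u - 1) = 2 := by ring
    by_cases hab : padicValRat 2 (u + 1) = padicValRat 2 (-(u - 1))
    · have k2 := padicValRat.min_le_padicValRat_add (p := 2) (q := u + 1) (r := -(u - 1))
        (by rw [d]; norm_num)
      rw [d, v2, ← hab, min_self] at k2
      rw [padicValRat.neg] at hab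
      omega
    · have k2 := padicValRat.add_eq_min (p := 2) (q := u + 1) (r := -(u - 1))
        (by rw [d]; norm_num) b0 (neg_ne_zero.2 a0) hab
      rw [d, v2, padicValRat.neg] at k2
      omega
  · rw [key h]
    have := abs_nonneg (padicValRat 2 u)
    omega

theorem eqn {t x y : ℚ} (h : (curve t).toAffine.Nonsingular x y) : y ^ 2 = x ^ 3 + t * x := by
  have := (equation_iff _ _).1 h.1
  simpa [curve] using this

theorem dbl {t x y : ℚ} (ht : t ≠ 0) (h : (curve t).toAffine.Nonsingular x y)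
    (h0 : x ^ 2 / t ≠ 0) (h2 : x ^ 2 / t ≠ -1) :
    ∃ (x' y' : ℚ) (h' : (curve t).toAffine.Nonsingular x' y'),
      Point.some _ _ h + Point.some _ _ h = Point.some _ _ h' ∧
      x' ^ 2 / t = (x ^ 2 / t - 1) ^ 4 / (16 * (x ^ 2 / t) * (x ^ 2 / t + 1) ^ 2) := by
  have e := eqn h
  have hx : x ≠ 0 := by rintro rfl; simp at h0
  have hx2 : x ^ 2 + t ≠ 0 := fun k => h2 (by field_simp; linarith)
  have hy : y ≠ 0 := by
    rintro rfl
    have : x * (x ^ 2 + t) = 0 := by linarith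
    exact (mul_ne_zero hx hx2) this
  have hn : y ≠ (curve t).toAffine.negY x y := by
    simp only [negY, curve]
    intro k
    apply hy
    linarith
  refine ⟨_, _, _, Point.add_self_of_Y_ne hn, ?_⟩
  have e2 : (curve t).toAffine.addX x x ((curve t).toAffine.slope x x y y) =
      (x ^ 2 - t) ^ 2 / (4 * (x * (x ^ 2 + t))) := by
    rw [slope_of_Y_ne rfl hn]
    simp only [addX, negY, curve]
    have e3 : (3 * x ^ 2 + 2 * 0 * x + t - 0 * y) / (y - (-y - 0 * x - 0)) =
        (3 * x ^ 2 + t) / (2 * y) := by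
      congr 1 <;> ring
    rw [e3, div_pow, mul_pow, e]
    have : x ^ 3 + t * x = x * (x ^ 2 + t) := by ring
    rw [this]
    field_simp
    ring
  rw [e2]
  have : x ^ 2 / t + 1 = (x ^ 2 + t) / t := by field_simp
  rw [this]
  field_simp
  ring

theorem Good.rank_pos {t : ℚ} (h : Good t) : 0 < Module.rank ℤ (curve t).toAffine.Point := by
  obtain ⟨ht, x, x', z, h1, h2, hz, hx⟩ := h
  have x0 : x ≠ 0 := by rintro rfl; exact ht (by linarith)
  have x1 : x' ≠ 0 := by rintro rfl; exact ht (by linarith)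
  have hP : (curve t).toAffine.Nonsingular x (x * z) := by
    rw [nonsingular_iff']
    refine ⟨?_, Or.inr ?_⟩
    · rw [equation_iff]
      simp only [curve]
      rw [← h1]
      linear_combination (-x ^ 2) * h2
    · simp only [curve]
      have := mul_ne_zero x0 hz
      intro k
      apply this
      linarith
  have eu : x ^ 2 / t = x / x' := by rw [← h1]; field_simp
  have u0 : x ^ 2 / t ≠ 0 := by positivity
  have u1 : x ^ 2 / t ≠ 1 := by rw [eu]; exact fun k => hx ((div_eq_one_iff_eq x1).1 k)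
  have u2 : x ^ 2 / t ≠ -1 := by
    rw [eu]
    intro k
    rw [div_eq_iff x1] at k
    exact pow_ne_zero 2 hz (by linarith)
  obtain ⟨x2, y2, hP2, e2, f2⟩ := dbl ht hP u0 u2
  have v2 : padicValRat 2 (x2 ^ 2 / t) ≠ 0 := f2 ▸ (val_phi u0 u1 u2).1
  have step : ∀ n : ℕ, ∃ (a b : ℚ) (hab : (curve t).toAffine.Nonsingular a b),
      (2 ^ n) • Point.some _ _ hP2 = Point.some _ _ hab ∧
      |padicValRat 2 (a ^ 2 / t)| = |padicValRat 2 (x2 ^ 2 / t)| + 4 * n := by
    intro n
    induction n with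
    | zero => exact ⟨x2, y2, hP2, by simp, by simp⟩
    | succ n ih =>
      obtain ⟨a, b, hab, e, f⟩ := ih
      have w0 : padicValRat 2 (a ^ 2 / t) ≠ 0 := by
        intro k
        have := abs_pos.2 v2
        rw [k, abs_zero] at f
        omega
      have w1 : a ^ 2 / t ≠ 0 := fun k => w0 (by rw [k]; simp)
      have w2 : a ^ 2 / t ≠ 1 := fun k => w0 (by rw [k]; simp)
      have w3 : a ^ 2 / t ≠ -1 := fun k => w0 (by rw [k]; simp)
      obtain ⟨a', b', hab', e', f'⟩ := dbl ht hab w1 w3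
      refine ⟨a', b', hab', by rw [pow_succ', mul_smul, e, two_nsmul, e'], ?_⟩
      rw [f', (val_phi w1 w2 w3).2 w0, f, abs_of_nonpos (by
        have := abs_nonneg (padicValRat 2 (x2 ^ 2 / t))
        omega)]
      push_cast
      ring
  rw [pos_iff_ne_zero, Ne, rank_eq_zero_iff]
  intro hall
  obtain ⟨n, hn, hn2⟩ := hall (Point.some _ _ hP2)
  have fin : IsOfFinAddOrder (Point.some _ _ hP2) := isOfFinAddOrder_iff_zsmul_eq_zero.2 ⟨n, hn, hn2⟩
  refine Set.infinite_of_injective_forall_mem (f := fun n : ℕ => (2 ^ n) • Point.some _ _ hP2)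
    (s := (AddSubmonoid.multiples (Point.some _ _ hP2) : Set _))
    (fun i j hij => ?_) (fun n => (AddSubmonoid.mem_multiples_iff _ _).2 ⟨2 ^ n, rfl⟩) fin.finite_multiples
  obtain ⟨a, b, hab, e, f⟩ := step i
  obtain ⟨a', b', hab', e', f'⟩ := step j
  simp only [e, e', Point.some.injEq] at hij
  rw [hij.1, f'] at f
  omega

theorem Good.scale {t c : ℚ} (h : Good t) (hc : c ≠ 0) : Good (t * c ^ 4) := by
  obtain ⟨ht, x, x', z, h1, h2, hz, hx⟩ := h
  refine ⟨by positivity, c ^ 2 * x, c ^ 2 * x', c * z, by rw [← h1]; ring,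
    by rw [← mul_add, h2]; ring, mul_ne_zero hc hz, fun k => hx ?_⟩
  exact mul_left_cancel₀ (pow_ne_zero 2 hc) k

theorem Good.isog {t : ℚ} (h : Good t) : Good (-4 * t) := by
  obtain ⟨ht, x, x', z, h1, h2, hz, hx⟩ := h
  have hd : x - x' ≠ 0 := sub_ne_zero.2 hx
  have e : z ^ 2 + -4 * t / z ^ 2 = ((x - x') / z) ^ 2 := by
    rw [← h1]
    field_simp
    linear_combination (-(z ^ 2 + x + x')) * h2
  refine ⟨mul_ne_zero (by norm_num) ht, z ^ 2, -4 * t / z ^ 2, (x - x') / z, by field_simp, e,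
    div_ne_zero hd hz, fun k => ?_⟩
  rw [← k] at e
  have e2 : ((x - x') / z / z) ^ 2 = 2 := by
    rw [div_pow, ← e]; field_simp; ring
  have : IsSquare (2 : ℚ) := ⟨_, by rw [← e2, sq]⟩
  revert this
  norm_num

theorem good_of_pair {N c x x' z : ℚ} (hN : N ≠ 0) (hc : c ≠ 0) (h0 : x * x' ≠ 0) (hz : z ≠ 0)
    (h : c * (x + x') = z ^ 2 * N) (hx : x ≠ x') : Good (c ^ 2 * (x * x') * N ^ 2) := by
  refine ⟨by positivity, c * x * N, c * x' * N, z * N, by ring, by linear_combination N * h,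
    mul_ne_zero hz hN, fun k => hx ?_⟩
  exact mul_left_cancel₀ hc (mul_right_cancel₀ hN k)

end Pool.Agent.Lib.MP_90cf6f_nt
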