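import Pool.Agent.Lib.MP_90cf6f_nt.More

/-! Eight simultaneous quartic twists over a base of genus one. -/

namespace Pool.Agent.Lib.MP_90cf6f_nt

namespace Eight

theorem pow4_of {a b c : ℤ} (ha : 0 < a) (h : IsCoprime a b) (e : a * b = c ^ 4) :
    ∃ d : ℤ, a = d ^ 4 := by
  obtain ⟨d, hd⟩ := exists_associated_pow_of_mul_eq_pow' h e
  rcases Int.associated_iff.1 hd with k | k
  · exact ⟨d, k.symm⟩
  · have : 0 ≤ d ^ 4 := by positivity
    omega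

theorem pow4_pair {a b c : ℤ} (ha : 0 < a) (hb : 0 < b) (h : IsCoprime a b) (e : a * b = c ^ 4) :
    ∃ u v : ℤ, a = u ^ 4 ∧ b = v ^ 4 := by
  obtain ⟨u, hu⟩ := pow4_of ha h e
  obtain ⟨v, hv⟩ := pow4_of hb h.symm (by rw [mul_comm, e])
  exact ⟨u, v, hu, hv⟩

theorem sq_mod8 (x : ℤ) : x ^ 2 % 8 = 0 ∨ x ^ 2 % 8 = 1 ∨ x ^ 2 % 8 = 4 := by
  have : x % 8 = 0 ∨ x % 8 = 1 ∨ x % 8 = 2 ∨ x % 8 = 3 ∨ x % 8 = 4 ∨ x % 8 = 5 ∨ x % 8 = 6 ∨
      x % 8 = 7 := by omega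
  rcases this with h | h | h | h | h | h | h | h <;> simp [pow_two, Int.mul_emod, h]

theorem p4_mod8 (x : ℤ) : (x % 2 = 0 ∧ x ^ 4 % 8 = 0) ∨ (x % 2 = 1 ∧ x ^ 4 % 8 = 1) := by
  rcases Int.emod_two_eq_zero_or_one x with h | h
  · obtain ⟨y, rfl⟩ : ∃ y, x = 2 * y := ⟨x / 2, by omega⟩
    refine Or.inl ⟨h, ?_⟩
    rw [show (2 * y) ^ 4 = 8 * (2 * y ^ 4) by ring]
    omega
  · refine Or.inr ⟨h, ?_⟩
    have : x % 8 = 1 ∨ x % 8 = 3 ∨ x % 8 = 5 ∨ x % 8 = 7 := by omega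
    rcases this with k | k | k | k <;> simp [pow_succ, Int.mul_emod, k]

theorem three_dvd {a k : ℤ} (h : 3 ∣ a ^ 4 + k ^ 2) : 3 ∣ k := by
  have h1 : a % 3 = 0 ∨ a % 3 = 1 ∨ a % 3 = 2 := by omega
  have h2 : k % 3 = 0 ∨ k % 3 = 1 ∨ k % 3 = 2 := by omega
  rw [Int.dvd_iff_emod_eq_zero] at h ⊢
  rcases h1 with h1 | h1 | h1 <;> rcases h2 with h2 | h2 | h2 <;>
    simp [pow_succ, Int.add_emod, Int.mul_emod, h1, h2] at h ⊢

theorem split12 {r t c a : ℤ} (hr : 0 < r) (ht : 0 < t) (h : IsCoprime r t) (e : r * t = 12 * c ^ 4)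
    (h3 : 3 ∣ t) (ha : r + t = a ^ 2) :
    ∃ u v : ℤ, IsCoprime u (6 * v) ∧ u ^ 4 + 12 * v ^ 4 = a ^ 2 ∧ u ^ 4 * v ^ 4 = c ^ 4 := by
  obtain ⟨t, rfl⟩ := h3
  have e1 : r * t = 2 ^ 2 * c ^ 4 := by linarith
  have h1 : IsCoprime r t := h.of_mul_right_right
  by_cases h2 : 2 ∣ r
  · exfalso
    have ht2 : ¬2 ∣ t := fun k => by
      have := h1.isUnit_of_dvd' h2 k
      revert this
      decide
    obtain ⟨r, rfl⟩ : 2 ^ 2 ∣ r :=
      Int.prime_two.pow_dvd_of_dvd_mul_right 2 ht2 ⟨c ^ 4, e1⟩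
    obtain ⟨u, v, rfl, rfl⟩ := pow4_pair (a := r) (b := t) (c := c) (by linarith) (by linarith)
      h1.of_mul_left_right (by linarith)
    have := sq_mod8 a
    have := p4_mod8 u
    have := p4_mod8 v
    have h5 : ¬2 ∣ v := fun k => ht2 (dvd_pow k (by norm_num))
    omega
  · obtain ⟨t, rfl⟩ : 2 ^ 2 ∣ t :=
      Int.prime_two.pow_dvd_of_dvd_mul_left 2 h2 ⟨c ^ 4, e1⟩
    obtain ⟨u, v, rfl, rfl⟩ := pow4_pair (a := r) (b := t) (c := c) hr (by linarith)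
      h1.of_mul_right_right (by linarith)
    refine ⟨u, v, ?_, by linarith, by linarith⟩
    have h6 : IsCoprime u (3 * (2 ^ 2 * v ^ 4)) := (IsCoprime.pow_left_iff (by norm_num)).1 h
    rw [show 3 * (2 ^ 2 * v ^ 4) = 6 * v * (2 * v ^ 3) by ring] at h6
    exact h6.of_mul_right_left

/-- Fermat descent. -/
theorem descent (n : ℕ) : ∀ K Z W : ℤ, (Z ^ 4).natAbs = n → IsCoprime K (6 * Z) → Z ≠ 0 →
    K ^ 4 + 12 * Z ^ 4 = W ^ 2 → False := by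
  induction n using Nat.strong_induction_on with
  | _ n ih =>
    intro K Z W hn hc hZ e
    have nd : ∀ p : ℤ, Prime p → p ∣ K → p ∣ 6 * Z → False := fun p hp h1 h2 =>
      hp.not_isUnit (hc.isUnit_of_dvd' h1 h2)
    have hK2 : ¬2 ∣ K := fun k => nd 2 Int.prime_two k ⟨3 * Z, by ring⟩
    have hK3 : ¬3 ∣ K := fun k => nd 3 Int.prime_three k ⟨2 * Z, by ring⟩
    have hZ4 : 0 < Z ^ 4 := by positivity
    obtain ⟨w, hw0, hw⟩ : ∃ w : ℤ, 0 ≤ w ∧ K ^ 4 + 12 * Z ^ 4 = w ^ 2 :=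
      ⟨|W|, abs_nonneg W, by rw [sq_abs, e]⟩
    have hKo : Odd K := Int.not_even_iff_odd.1 fun k => hK2 k.two_dvd
    have hwo : Odd w := by
      have : Odd (w ^ 2) := by
        rw [← hw]
        exact hKo.pow.add_even ⟨6 * Z ^ 4, by ring⟩
      exact (Int.odd_pow' two_ne_zero).1 this
    obtain ⟨m, hm⟩ : Even (w - K ^ 2) := hwo.sub_odd hKo.pow
    have e1 : m * (m + K ^ 2) = 3 * Z ^ 4 := by
      have : w = 2 * m + K ^ 2 := by linarith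
      rw [this] at hw
      linarith
    have hK0 : 0 ≤ K ^ 2 := sq_nonneg K
    have hm1 : 0 < m + K ^ 2 := by nlinarith
    have hm0 : 0 < m := by nlinarith
    have hcm : IsCoprime m (m + K ^ 2) := by
      refine isCoprime_of_prime_dvd (fun k => hm0.ne' k.1) fun p hp h1 h2 => ?_
      refine nd p hp (hp.dvd_of_dvd_pow ((dvd_add_right h1).1 h2)) ?_
      have : p ∣ 3 * Z ^ 4 := e1 ▸ h1.mul_right _
      rcases hp.dvd_or_dvd this with k | k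
      · exact (k.mul_left 2).mul_right Z
      · exact (hp.dvd_of_dvd_pow k).mul_left 6
    rcases Int.prime_three.dvd_or_dvd (show (3 : ℤ) ∣ m * (m + K ^ 2) from ⟨_, e1⟩) with h3 | h3
    swap
    · obtain ⟨q, hq⟩ := h3
      rw [hq] at e1 hcm hm1
      obtain ⟨a, ha⟩ := pow4_of (a := m) (b := q) (c := Z) hm0 hcm.of_mul_right_right (by linarith)
      exact hK3 (three_dvd (a := a) ⟨q, by rw [← ha, hq]⟩)
    obtain ⟨q, rfl⟩ := h3
    obtain ⟨b, a, rfl, ha⟩ := pow4_pair (a := q) (b := 3 * q + K ^ 2) (c := Z) (by linarith) hm1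
      hcm.of_mul_left_right (by linarith)
    have eZ : b ^ 4 * a ^ 4 = Z ^ 4 := by rw [← ha]; linarith
    have hK8 : K ^ 2 % 8 = 1 := by
      have := sq_mod8 K
      have h5 : Odd (K ^ 2) := hKo.pow
      rw [Int.odd_iff] at h5
      omega
    obtain ⟨c, rfl⟩ : 2 ∣ b := by
      have := p4_mod8 a
      have := p4_mod8 b
      omega
    have hao : Odd a := by
      have := p4_mod8 a
      have := p4_mod8 (2 * c)
      rw [Int.odd_iff]
      omega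
    obtain ⟨r, hr⟩ : Even (a ^ 2 - K) := hao.pow.sub_odd hKo
    have e2 : r * (r + K) = 12 * c ^ 4 := by
      have h5 : a ^ 4 = (2 * r + K) ^ 2 := by
        rw [show 2 * r + K = a ^ 2 by linarith]
        ring
      rw [h5] at ha
      linarith
    have hc0 : c ≠ 0 := by
      rintro rfl
      simp at eZ
      omega
    have ha0 : a ≠ 0 := by
      rintro rfl
      simp at eZ
      omega
    have hc4 : 0 < c ^ 4 := by positivity
    have ha2 : 0 < a ^ 2 := by positivity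
    have hs : r + (r + K) = a ^ 2 := by linarith
    have hr0 : 0 < r := by nlinarith
    have hr1 : 0 < r + K := by nlinarith
    have hcr : IsCoprime r (r + K) := by
      refine isCoprime_of_prime_dvd (fun k => hr0.ne' k.1) fun p hp h1 h2 => ?_
      refine nd p hp ((dvd_add_right h1).1 h2) ?_
      have h5 : p ∣ a := hp.dvd_of_dvd_pow (hs ▸ dvd_add h1 h2)
      have h6 : p ∣ Z ^ 4 := eZ ▸ (dvd_pow h5 (by norm_num)).mul_left _
      exact (hp.dvd_of_dvd_pow h6).mul_left 6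
    obtain ⟨u, v, g1, g2, g3⟩ : ∃ u v : ℤ, IsCoprime u (6 * v) ∧ u ^ 4 + 12 * v ^ 4 = a ^ 2 ∧
        u ^ 4 * v ^ 4 = c ^ 4 := by
      rcases Int.prime_three.dvd_or_dvd
        (show (3 : ℤ) ∣ r * (r + K) from ⟨4 * c ^ 4, by linarith⟩) with h3 | h3
      · exact split12 hr1 hr0 hcr.symm (by linarith) h3 (by linarith)
      · exact split12 hr0 hr1 hcr e2 h3 hs
    have hv0 : v ≠ 0 := by
      rintro rfl
      simp at g3
      omega
    have hu0 : u ≠ 0 := by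
      rintro rfl
      simp at g3
      omega
    have hu4 : 0 < u ^ 4 := by positivity
    have hv4 : 0 < v ^ 4 := by positivity
    have ha4 : 0 < a ^ 4 := by positivity
    have l1 : v ^ 4 ≤ c ^ 4 := by nlinarith
    have l2 : 16 * c ^ 4 ≤ Z ^ 4 := by nlinarith
    exact ih (v ^ 4).natAbs (by omega) u v a rfl g1 hv0 g2

/-- integral points of the base curve -/
def Pt (P : ℤ × ℤ × ℤ) : Prop :=
  IsCoprime P.1 (6 * P.2.1) ∧ 0 < P.2.1 ^ 2 ∧ P.2.2 ^ 2 = P.1 ^ 4 + 216 * P.2.1 ^ 4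

theorem Pt.key {K Z L p : ℤ} (h : Pt (K, Z, L)) (hp : Prime p) (h1 : p ∣ 2 * K * Z * L)
    (h2 : p ∣ K ^ 4 - 216 * Z ^ 4) : False := by
  obtain ⟨hc, -, e⟩ := h
  dsimp only at hc e
  have a1 : ¬p ∣ K := fun k => by
    have : p ∣ (6 * Z) ^ 3 * Z := by
      rw [show (6 * Z) ^ 3 * Z = K ^ 4 - (K ^ 4 - 216 * Z ^ 4) by ring]
      exact dvd_sub (dvd_pow k (by norm_num)) h2
    refine hp.not_isUnit (hc.isUnit_of_dvd' k ?_)
    rcases hp.dvd_or_dvd this with k | k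
    · exact hp.dvd_of_dvd_pow k
    · exact k.mul_left 6
  have a2 : ¬p ∣ 6 * Z := fun k => a1 (hp.dvd_of_dvd_pow (n := 4) (by
    rw [show K ^ 4 = K ^ 4 - 216 * Z ^ 4 + 6 * Z * (36 * Z ^ 3) by ring]
    exact dvd_add h2 (k.mul_right _)))
  have a3 : ¬p ∣ 2 := fun k => a2 ((k.mul_right 3).mul_right Z)
  rcases hp.dvd_or_dvd h1 with k | k
  · rcases hp.dvd_or_dvd k with k | k
    · exact (hp.dvd_or_dvd k).elim a3 a1
    · exact a2 (k.mul_left 6)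
  · have : p ∣ 2 * K ^ 4 := by
      rw [show 2 * K ^ 4 = L ^ 2 + (K ^ 4 - 216 * Z ^ 4) by rw [e]; ring]
      exact dvd_add (dvd_pow k two_ne_zero) h2
    exact (hp.dvd_or_dvd this).elim a3 fun k => a1 (hp.dvd_of_dvd_pow k)

/-- doubling -/
def dup (P : ℤ × ℤ × ℤ) : ℤ × ℤ × ℤ :=
  (P.1 ^ 4 - 216 * P.2.1 ^ 4, 2 * P.1 * P.2.1 * P.2.2, P.2.2 ^ 4 + 864 * P.1 ^ 4 * P.2.1 ^ 4)

theorem Pt.dup {P : ℤ × ℤ × ℤ} (h : Pt P) : Pt (dup P) ∧ P.2.1 ^ 2 < (dup P).2.1 ^ 2 := by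
  obtain ⟨K, Z, L⟩ := P
  obtain ⟨hc, hZ, e⟩ := id h
  dsimp only at hc hZ e
  have hK : K ≠ 0 := by
    rintro rfl
    have := (isCoprime_zero_left.1 hc)
    rw [Int.isUnit_iff] at this
    omega
  have hK2 : 0 < K ^ 2 := by positivity
  have hL2 : 0 < L ^ 2 := by
    rw [e]
    have : 0 < K ^ 4 := by positivity
    positivity
  have lt : Z ^ 2 < (2 * K * Z * L) ^ 2 := by
    rw [show (2 * K * Z * L) ^ 2 = Z ^ 2 * (4 * (K ^ 2 * L ^ 2)) by ring]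
    have : 0 < K ^ 2 * L ^ 2 := by positivity
    nlinarith
  refine ⟨⟨?_, hZ.trans lt, ?_⟩, lt⟩
  · refine isCoprime_of_prime_dvd (fun k => ?_) fun p hp h1 h2 => ?_
    · have h0 : 6 * (2 * K * Z * L) = 0 := k.2
      have : 2 * K * Z * L = 0 := by linarith
      rw [this] at lt
      omega
    · have h2' : p ∣ 6 * (2 * K * Z * L) := h2
      have h1' : p ∣ K ^ 4 - 216 * Z ^ 4 := h1
      rcases hp.dvd_or_dvd h2' with k | k
      · have : p ∣ K := hp.dvd_of_dvd_pow (n := 4) (by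
          rw [show K ^ 4 = K ^ 4 - 216 * Z ^ 4 + 6 * (36 * Z ^ 4) by ring]
          exact dvd_add h1' (k.mul_right _))
        exact hp.not_isUnit (hc.isUnit_of_dvd' this (k.mul_right Z))
      · exact h.key hp k h1'
  · show (L ^ 4 + 864 * K ^ 4 * Z ^ 4) ^ 2 =
      (K ^ 4 - 216 * Z ^ 4) ^ 4 + 216 * (2 * K * Z * L) ^ 4
    rw [show L ^ 4 = (L ^ 2) ^ 2 by ring,
      show (2 * K * Z * L) ^ 4 = (2 * K * Z) ^ 4 * (L ^ 2) ^ 2 by ring, e]
    ring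

theorem pt_iter (n : ℕ) : Pt (dup^[n] (5, 1, 29)) := by
  induction n with
  | zero => exact ⟨by decide, by decide, by decide⟩
  | succ n ih =>
    rw [Function.iterate_succ_apply']
    exact ih.dup.1

theorem two_points (M : ℕ) (hM : M ≠ 0) : ∃ K Z L K' Z' L' : ℤ, Pt (K, Z, L) ∧ Pt (K', Z', L') ∧
    Z ^ 2 ≠ Z' ^ 2 ∧ (M : ℤ) ∣ K' - K ∧ (M : ℤ) ∣ Z' - Z ∧ (M : ℤ) ∣ L' - L := by
  have : NeZero M := ⟨hM⟩
  obtain ⟨i, j, hij, e⟩ := Finite.exists_ne_map_eq_of_infinite fun n : ℕ =>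
    ((((dup^[n] (5, 1, 29)).1 : ℤ) : ZMod M), (((dup^[n] (5, 1, 29)).2.1 : ℤ) : ZMod M),
      (((dup^[n] (5, 1, 29)).2.2 : ℤ) : ZMod M))
  have mono : StrictMono fun n : ℕ => (dup^[n] (5, 1, 29)).2.1 ^ 2 :=
    strictMono_nat_of_lt_succ fun n => by
      rw [Function.iterate_succ_apply']
      exact (pt_iter n).dup.2
  simp only [Prod.mk.injEq, ZMod.intCast_eq_intCast_iff_dvd_sub] at e
  exact ⟨_, _, _, _, _, _, pt_iter i, pt_iter j, fun k => hij (mono.injective k), e.1, e.2.1, e.2.2⟩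

/-- a point whose denominator is divisible by all small primes -/
theorem exists_point (B : ℕ) : ∃ (K Z : ℤ) (L : ℚ), IsCoprime K Z ∧ Z ≠ 0 ∧
    L ^ 2 = K ^ 4 + 216 * Z ^ 4 ∧ ∀ p : ℕ, p.Prime → p ≤ B → (p : ℤ) ∣ Z := by
  obtain ⟨K, Z, L, K', Z', L', h, h', hne, d1, d2, d3⟩ := two_points B.factorial B.factorial_ne_zero
  obtain ⟨hc, -, e⟩ := id h
  obtain ⟨hc', -, e'⟩ := id h'
  dsimp only at hc e hc' e'
  have odd : ∀ {x y : ℤ}, IsCoprime x (6 * y) → Odd x := fun {x y} k =>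
    Int.not_even_iff_odd.1 fun k2 =>
      Int.prime_two.not_isUnit (k.isUnit_of_dvd' k2.two_dvd ⟨3 * y, by ring⟩)
  have hD : K ^ 2 * K' ^ 2 - 216 * Z ^ 2 * Z' ^ 2 ≠ 0 := fun k => by
    have : Odd (K ^ 2 * K' ^ 2 - 216 * Z ^ 2 * Z' ^ 2) :=
      ((odd hc).pow.mul (odd hc').pow).sub_even ⟨108 * Z ^ 2 * Z' ^ 2, by ring⟩
    rw [k] at this
    exact absurd this (by decide)
  have hN2 : Z ^ 2 * K' ^ 2 - Z' ^ 2 * K ^ 2 ≠ 0 := fun k => by
    have c1 : IsCoprime (Z ^ 2) (K ^ 2) := hc.of_mul_right_right.symm.pow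
    have c2 : IsCoprime (Z' ^ 2) (K' ^ 2) := hc'.of_mul_right_right.symm.pow
    exact hne (Int.dvd_antisymm (sq_nonneg _) (sq_nonneg _)
      (c1.dvd_of_dvd_mul_right ⟨K' ^ 2, by linarith⟩)
      (c2.dvd_of_dvd_mul_right ⟨K ^ 2, by linarith⟩))
  have rel : (Z * K * L' - Z' * K' * L) * (Z * K * L' + Z' * K' * L) =
      (Z ^ 2 * K' ^ 2 - Z' ^ 2 * K ^ 2) * (K ^ 2 * K' ^ 2 - 216 * Z ^ 2 * Z' ^ 2) := by
    linear_combination (Z * K) ^ 2 * e' - (Z' * K') ^ 2 * e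
  have cur : (L * L' * (K ^ 2 * K' ^ 2 + 216 * Z ^ 2 * Z' ^ 2) -
      432 * Z * Z' * K * K' * (Z ^ 2 * K' ^ 2 + Z' ^ 2 * K ^ 2)) ^ 2 =
      (K ^ 2 * K' ^ 2 - 216 * Z ^ 2 * Z' ^ 2) ^ 4 + 216 * (Z * K * L' - Z' * K' * L) ^ 4 := by
    have e4 : L ^ 4 = (K ^ 4 + 216 * Z ^ 4) ^ 2 := by rw [← e]; ring
    have e4' : L' ^ 4 = (K' ^ 4 + 216 * Z' ^ 4) ^ 2 := by rw [← e']; ring
    have x1 : (Z * K * L' - Z' * K' * L) ^ 4 = (Z * K) ^ 4 * L' ^ 4 + (Z' * K') ^ 4 * L ^ 4 +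
        6 * (Z * K * Z' * K') ^ 2 * (L ^ 2 * L' ^ 2) -
        4 * (Z * K * Z' * K') * (L * L') * ((Z * K) ^ 2 * L' ^ 2 + (Z' * K') ^ 2 * L ^ 2) := by ring
    have x2 : ∀ A C : ℤ, (L * L' * A - C) ^ 2 = L ^ 2 * L' ^ 2 * A ^ 2 - 2 * (L * L') * A * C + C ^ 2 :=
      fun A C => by ring
    rw [x1, x2, e4, e4', e, e']
    ring
  obtain ⟨g, X, Y, hg, hXY, eX, eY⟩ := Int.exists_gcd_one'
    (m := K ^ 2 * K' ^ 2 - 216 * Z ^ 2 * Z' ^ 2) (n := Z * K * L' - Z' * K' * L)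
    (Int.gcd_pos_of_ne_zero_left _ hD)
  have hg0 : (g : ℤ) ≠ 0 := by exact_mod_cast hg.ne'
  refine ⟨X, Y, ((L * L' * (K ^ 2 * K' ^ 2 + 216 * Z ^ 2 * Z' ^ 2) -
      432 * Z * Z' * K * K' * (Z ^ 2 * K' ^ 2 + Z' ^ 2 * K ^ 2) : ℤ) : ℚ) / (g : ℚ) ^ 2,
    Int.isCoprime_iff_gcd_eq_one.2 hXY, fun k => ?_, ?_, fun p hp hB => ?_⟩
  · rw [eY, k, zero_mul, zero_mul] at rel
    exact mul_ne_zero hN2 hD rel.symm
  · rw [eX, eY] at cur
    have hq : (g : ℚ) ≠ 0 := by exact_mod_cast hg.ne'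
    rw [div_pow, ← Int.cast_pow, cur]
    push_cast
    field_simp
  · have hp' : Prime (p : ℤ) := Nat.prime_iff_prime_int.1 hp
    have hM : (p : ℤ) ∣ (B.factorial : ℤ) :=
      Int.natCast_dvd_natCast.2 ((hp.dvd_factorial).2 hB)
    obtain ⟨x, hx⟩ := hM.trans d1
    obtain ⟨y, hy⟩ := hM.trans d2
    obtain ⟨z, hz⟩ := hM.trans d3
    obtain rfl : K' = K + p * x := by linarith
    obtain rfl : Z' = Z + p * y := by linarith
    obtain rfl : L' = L + p * z := by linarith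
    by_cases h1 : (p : ℤ) ∣ K ^ 4 - 216 * Z ^ 4
    · have h2 : ¬(p : ℤ) ∣ Z * K * (L + p * z) + (Z + p * y) * (K + p * x) * L := fun k =>
        h.key hp' (by
          rw [show 2 * K * Z * L = Z * K * (L + p * z) + (Z + p * y) * (K + p * x) * L -
            p * (Z * K * z + Z * x * L + y * K * L + p * x * y * L) by ring]
          exact dvd_sub k (dvd_mul_right _ _)) h1
      rw [eX, eY] at rel
      have rel2 : Y * (Z * K * (L + p * z) + (Z + p * y) * (K + p * x) * L) =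
          (Z ^ 2 * (K + p * x) ^ 2 - (Z + p * y) ^ 2 * K ^ 2) * X :=
        mul_right_cancel₀ hg0 (by linear_combination rel)
      refine (hp'.dvd_or_dvd (rel2 ▸ Dvd.dvd.mul_right ?_ X)).resolve_right h2
      exact ⟨Z ^ 2 * (2 * K * x + p * x ^ 2) - (2 * Z * y + p * y ^ 2) * K ^ 2, by ring⟩
    · have h2 : ¬(p : ℤ) ∣ g := fun k => h1 (by
        have := k.mul_left X
        rw [← eX] at this
        rw [show K ^ 4 - 216 * Z ^ 4 = K ^ 2 * (K + p * x) ^ 2 - 216 * Z ^ 2 * (Z + p * y) ^ 2 -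
          p * (K ^ 2 * (2 * K * x + p * x ^ 2) - 216 * Z ^ 2 * (2 * Z * y + p * y ^ 2)) by ring]
        exact dvd_sub this (dvd_mul_right _ _))
      refine (hp'.dvd_or_dvd (eY ▸ ?_)).resolve_right h2
      exact ⟨Z * K * z - (Z * x * L + y * K * L + p * x * y * L), by ring⟩

theorem infinite_of_odd {P : ℚ → Prop} (h0 : ¬P 0) (hi : ∀ t, P t → P (-4 * t))
    (hs : ∀ t c, P (t * c ^ 4) → c ≠ 0 → P t)
    (h : ∀ B : ℕ, ∃ (l : ℕ) (a : ℤ), l.Prime ∧ B < l ∧ P a ∧ Odd (padicValInt l a)) :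
    {a : ℕ | 1 ≤ a ∧ P a ∧ ∀ p : ℕ, p.Prime → ¬p ^ 4 ∣ a}.Infinite := by
  refine Set.infinite_of_forall_exists_gt fun B => ?_
  obtain ⟨l, a, hl, hB, f1, f2⟩ := h (B + 2)
  have : Fact l.Prime := ⟨hl⟩
  obtain ⟨a', g1, g2⟩ : ∃ a' : ℕ, P a' ∧ Odd (padicValNat l a') := by
    rcases le_total 0 a with h | h
    · lift a to ℕ using h
      exact ⟨a, by simpa using f1, by simpa using f2⟩
    · obtain ⟨b, hb⟩ := Int.eq_ofNat_of_zero_le (a := -4 * a) (by omega)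
      refine ⟨b, ?_, ?_⟩
      · convert hi _ f1 using 1
        exact_mod_cast hb.symm
      · have ha : a ≠ 0 := by
          rintro rfl
          simp at f2
        have h4 : ¬(l : ℤ) ∣ -4 := fun k => by
          have h6 : (l : ℤ) ∣ 2 :=
            (Nat.prime_iff_prime_int.1 hl).dvd_of_dvd_pow (n := 2) (by simpa using k)
          have := Int.le_of_dvd (by norm_num) h6
          omega
        rw [← padicValInt.of_nat, ← hb, padicValInt.mul (by norm_num) ha,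
          padicValInt.eq_zero_of_not_dvd h4, zero_add]
        exact f2
  have red : ∀ a : ℕ, P a → Odd (padicValNat l a) →
      ∃ b : ℕ, P b ∧ l ∣ b ∧ ∀ p : ℕ, p.Prime → ¬p ^ 4 ∣ b := fun a => by
    induction a using Nat.strong_induction_on with
    | _ a ih =>
      intro h1 h2
      by_cases h : ∀ p : ℕ, p.Prime → ¬p ^ 4 ∣ a
      · exact ⟨a, h1, dvd_of_one_le_padicValNat h2.pos, h⟩
      push Not at h
      obtain ⟨p, hp, b, rfl⟩ := h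
      have hb : 0 < b := by
        rcases Nat.eq_zero_or_pos b with rfl | hb
        · simp at h2
        · exact hb
      have hp0 : (p : ℚ) ≠ 0 := by exact_mod_cast hp.ne_zero
      refine ih b ?_ (hs _ p ?_ hp0) ?_
      · have : 1 < p ^ 4 := Nat.one_lt_pow (by norm_num) hp.one_lt
        nlinarith
      · convert h1 using 1
        push_cast
        ring
      · rw [padicValNat.mul (pow_ne_zero 4 hp.ne_zero) hb.ne', padicValNat.pow,
          Nat.odd_iff] at h2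
        rw [Nat.odd_iff]
        omega
  obtain ⟨b, r1, r5, r6⟩ := red a' g1 g2
  have hb : 1 ≤ b := by
    rcases Nat.eq_zero_or_pos b with rfl | hb
    · exact absurd (by simpa using r1) h0
    · exact hb
  refine ⟨b, ⟨hb, r1, r6⟩, ?_⟩
  have := Nat.le_of_dvd hb r5
  omega

theorem exists_odd {G : ℤ} (h0 : 0 < G) (h : ∀ W : ℤ, G ≠ W ^ 2) :
    ∃ l : ℕ, l.Prime ∧ Odd (padicValInt l G) := by
  lift G to ℕ using h0.le
  obtain ⟨c, b, hc, hb, e, hsq⟩ := Nat.sq_mul_squarefree_of_pos (n := G) (by exact_mod_cast h0)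
  have hc1 : c ≠ 1 := by
    rintro rfl
    exact h b (by rw [← e]; push_cast; ring)
  obtain ⟨l, hl, hlc⟩ := Nat.exists_prime_and_dvd hc1
  have : Fact l.Prime := ⟨hl⟩
  refine ⟨l, hl, ?_⟩
  have h1 : 1 ≤ padicValNat l c := one_le_padicValNat_of_dvd hc.ne' hlc
  have h2 : ¬2 ≤ padicValNat l c := fun k =>
    hl.not_isUnit (hsq l (by rw [← sq]; exact (padicValNat_dvd_iff_le hc.ne').2 k))
  rw [padicValInt.of_nat, ← e, padicValNat.mul (pow_ne_zero 2 hb.ne') hc.ne',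
    padicValNat.pow, Nat.odd_iff]
  omega

/-- eight simultaneous good twists -/
def Oct (t : ℚ) : Prop := Good t ∧ Good (t * 2) ∧ Good (t * 4) ∧ Good (t * 8) ∧ Good (t * 3) ∧
  Good (t * 9) ∧ Good (t * 27) ∧ Good (t * 12)

theorem oct_family {K Z u v l : ℤ} {L : ℚ} (hl : Prime l) (eu : u = K ^ 4) (ev : v = 162 * Z ^ 4)
    (eL : L ^ 2 = K ^ 4 + 216 * Z ^ 4) (h1 : l ∣ u + 6 * v) (h0 : u + 6 * v ≠ 0)
    (hZ : ¬l ∣ Z) (h2 : ¬l ∣ 2) (h3 : ¬l ∣ 3) (h5 : ¬l ∣ 5) (h7 : ¬l ∣ 7) :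
    ¬l ∣ 50 * (u ^ 2 - 98 * u * v + v ^ 2) * (u ^ 2 - 198 * u * v + v ^ 2) * (6 * u + v) ∧
    Oct ((50 * (u ^ 2 - 98 * u * v + v ^ 2) * (u ^ 2 - 198 * u * v + v ^ 2) * (6 * u + v) *
      (u + 6 * v) : ℤ) : ℚ) := by
  have nd : ∀ {x y : ℤ}, ¬l ∣ x → ¬l ∣ y → ¬l ∣ x * y := fun hx hy e =>
    (hl.dvd_or_dvd e).elim hx hy
  have np : ∀ {x : ℤ} (n : ℕ), ¬l ∣ x → ¬l ∣ x ^ n := fun n hx e => hx (hl.dvd_of_dvd_pow e)
  have sh : ∀ {x y : ℤ} (w : ℤ), ¬l ∣ y → x = y + (u + 6 * v) * w → ¬l ∣ x := fun w hy e h =>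
    hy ((dvd_add_left (h1.mul_right w)).1 (e ▸ h))
  have ng : ∀ {x : ℤ}, ¬l ∣ x → ¬l ∣ -x := fun h e => h (dvd_neg.1 e)
  have hv : ¬l ∣ v := by
    rw [ev, show (162 : ℤ) = 2 * 3 ^ 4 by norm_num]
    exact nd (nd h2 (np 4 h3)) (np 4 hZ)
  have hu : ¬l ∣ u := sh 1 (ng (nd (nd h2 h3) hv)) (by ring)
  have hK : ¬l ∣ K := fun e => hu (eu ▸ dvd_pow e (by norm_num))
  have q1 : ¬l ∣ u ^ 2 - 98 * u * v + v ^ 2 :=
    sh (u - 104 * v) (np 2 (nd (np 2 h5) hv)) (by ring)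
  have q2 : ¬l ∣ u ^ 2 - 198 * u * v + v ^ 2 :=
    sh (u - 204 * v) (np 2 (nd (nd h5 h7) hv)) (by ring)
  have l1 : ¬l ∣ 6 * u + v := sh 6 (ng (nd (nd h5 h7) hv)) (by ring)
  have a1 : ¬l ∣ u + v := sh 1 (ng (nd h5 hv)) (by ring)
  have a2 : ¬l ∣ 3 * u - 17 * v := sh 3 (ng (nd (nd h5 h7) hv)) (by ring)
  have a3 : ¬l ∣ 3 * v - 17 * u := sh (-17) (nd (nd h3 (nd h5 h7)) hv) (by ring)
  have a4 : ¬l ∣ 3 * u + 4 * v := sh 3 (ng (nd (nd h2 h7) hv)) (by ring)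
  have z : ∀ {x : ℤ}, ¬l ∣ x → x ≠ 0 := fun h e => h (e ▸ dvd_zero l)
  have zq : ∀ {x : ℤ}, ¬l ∣ x → (x : ℚ) ≠ 0 := fun h => by exact_mod_cast z h
  have u0 := z hu
  have v0 := z hv
  have l0 := z l1
  have q0 := z q2
  have K0 := zq hK
  have Z0 := zq hZ
  have euq : (u : ℚ) = (K : ℚ) ^ 4 := by exact_mod_cast eu
  have evq : (v : ℚ) = 162 * (Z : ℚ) ^ 4 := by exact_mod_cast ev
  have eL' : 3 * (u : ℚ) + 4 * v = 3 * L ^ 2 := by rw [eL, euq, evq]; ring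
  have L0 : L ≠ 0 := fun e => zq a4 (by push_cast; rw [eL', e]; ring)
  refine ⟨nd (nd (nd (show ¬l ∣ 2 * 5 ^ 2 from nd h2 (np 2 h5)) q1) q2) l1,
    ?_, ?_, ?_, ?_, ?_, ?_, ?_, ?_⟩
  · refine (good_of_dvd (x := 62500 * u ^ 3 * v ^ 3 * (6 * u + v) * (u + 6 * v))
      (z := u ^ 4 - 146 * u ^ 3 * v - 1544 * u ^ 2 * v ^ 2 - 146 * u * v ^ 3 + v ^ 4) (by ring)
      (h1.mul_left _) (by positivity) (nd (nd q1 q2) (np 4 a1))).of_eq
      (c := 270 * K ^ 3 * Z ^ 3 * ((u + v : ℤ) : ℚ)) (by have := zq a1; positivity) ?_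
    push_cast
    rw [show (270 * (K : ℚ) ^ 3 * (Z : ℚ) ^ 3 * ((u : ℚ) + v)) ^ 4 =
      1250 * ((K : ℚ) ^ 4) ^ 3 * (162 * (Z : ℚ) ^ 4) ^ 3 * ((u : ℚ) + v) ^ 4 by ring, ← euq, ← evq]
    ring
  · refine (good_of_dvd (x := 400 * v ^ 2 * (6 * u + v) * (u + 6 * v))
      (z := u ^ 2 - 148 * u * v - 49 * v ^ 2) (by ring)
      (h1.mul_left _) (by positivity) (nd q1 q2)).of_eq (c := 18 * Z ^ 2) (by positivity) ?_
    push_cast
    rw [show (18 * (Z : ℚ) ^ 2) ^ 4 = 4 * (162 * (Z : ℚ) ^ 4) ^ 2 by ring, ← evq]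
    ring
  · refine (good_of_dvd (x := 100 * u * v * (6 * u + v) * (u + 6 * v))
      (z := u ^ 2 + 152 * u * v + v ^ 2) (by ring)
      (h1.mul_left _) (by positivity) (nd q1 q2)).of_eq (c := 3 * K * Z) (by positivity) ?_
    push_cast
    rw [show (3 * (K : ℚ) * Z) ^ 4 = (K : ℚ) ^ 4 * (162 * (Z : ℚ) ^ 4) / 2 by ring, ← euq, ← evq]
    ring
  · refine (good_of_dvd (x := 400 * u ^ 2 * (6 * u + v) * (u + 6 * v))
      (z := 49 * u ^ 2 + 148 * u * v - v ^ 2) (by ring)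
      (h1.mul_left _) (by positivity) (nd q1 q2)).of_eq (c := K ^ 2) (by positivity) ?_
    push_cast
    rw [show ((K : ℚ) ^ 2) ^ 4 = ((K : ℚ) ^ 4) ^ 2 by ring, ← euq]
    ring
  · refine (good_of_dvd
      (x := -9600 * u ^ 2 * (u ^ 2 - 198 * u * v + v ^ 2) * (6 * u + v) * (u + 6 * v))
      (z := 161 * u ^ 3 + 8713 * u ^ 2 * v + 543 * u * v ^ 2 - 9 * v ^ 3) (by ring)
      (h1.mul_left _) (mul_ne_zero (mul_ne_zero (mul_ne_zero (mul_ne_zero (by norm_num)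
        (pow_ne_zero 2 u0)) q0) l0) h0) (nd q1 (np 4 a3))).isog.of_eq
      (c := 4 * K ^ 2 * ((3 * v - 17 * u : ℤ) : ℚ)) (by have := zq a3; positivity) ?_
    push_cast
    rw [show (4 * (K : ℚ) ^ 2 * (3 * (v : ℚ) - 17 * u)) ^ 4 =
      256 * ((K : ℚ) ^ 4) ^ 2 * (3 * (v : ℚ) - 17 * u) ^ 4 by ring, ← euq]
    ring
  · refine (good_of_dvd (x := 25 * u * v * (6 * u + v) * (u + 6 * v))
      (z := 3 * u ^ 2 - 419 * u * v + 3 * v ^ 2) (by ring)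
      (h1.mul_left _) (by positivity) (nd (nd (np 2 h3) q1) q2)).of_eq
      (c := 3 * K * Z) (by positivity) ?_
    push_cast
    rw [show (3 * (K : ℚ) * Z) ^ 4 = (K : ℚ) ^ 4 * (162 * (Z : ℚ) ^ 4) / 2 by ring, ← euq, ← evq]
    ring
  · refine (good_of_dvd
      (x := -24 * (u ^ 2 - 198 * u * v + v ^ 2) * (6 * u + v) * (u + 6 * v))
      (z := 9 * u ^ 2 + 343 * u * v - 16 * v ^ 2) (by ring)
      (h1.mul_left _) (mul_ne_zero (mul_ne_zero (mul_ne_zero (by norm_num) q0) l0) h0)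
      (nd (nd (np 2 h5) q1) (np 2 a4))).isog.of_eq (c := 2 * L) (by positivity) ?_
    push_cast
    rw [show (2 * L) ^ 4 = 16 / 9 * (3 * L ^ 2) ^ 2 by ring, ← eL']
    ring
  · refine (good_of_dvd
      (x := -9600 * v ^ 2 * (u ^ 2 - 198 * u * v + v ^ 2) * (6 * u + v) * (u + 6 * v))
      (z := 9 * u ^ 3 - 543 * u ^ 2 * v - 8713 * u * v ^ 2 - 161 * v ^ 3) (by ring)
      (h1.mul_left _) (mul_ne_zero (mul_ne_zero (mul_ne_zero (mul_ne_zero (by norm_num)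
        (pow_ne_zero 2 v0)) q0) l0) h0) (nd q1 (np 4 a2))).isog.of_eq
      (c := 36 * Z ^ 2 * ((3 * u - 17 * v : ℤ) : ℚ)) (by have := zq a2; positivity) ?_
    push_cast
    rw [show (36 * (Z : ℚ) ^ 2 * (3 * (u : ℚ) - 17 * v)) ^ 4 =
      64 * (162 * (Z : ℚ) ^ 4) ^ 2 * (3 * (u : ℚ) - 17 * v) ^ 4 by ring, ← evq]
    ring

theorem oct_infinite :
    {a : ℕ | 1 ≤ a ∧ Oct a ∧ ∀ p : ℕ, p.Prime → ¬p ^ 4 ∣ a}.Infinite := by
  refine infinite_of_odd (fun h => h.1.1 rfl) (fun t h => ?_) (fun t c h hc => ?_) fun B => ?_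
  · obtain ⟨a1, a2, a3, a4, a5, a6, a7, a8⟩ := h
    have k : ∀ m : ℚ, Good (t * m) → Good (-4 * t * m) := fun m h => by
      rw [mul_assoc]
      exact h.isog
    exact ⟨a1.isog, k _ a2, k _ a3, k _ a4, k _ a5, k _ a6, k _ a7, k _ a8⟩
  · obtain ⟨a1, a2, a3, a4, a5, a6, a7, a8⟩ := h
    have k : ∀ m : ℚ, Good (t * c ^ 4 * m) → Good (t * m) := fun m h => h.of_eq hc (by ring)
    exact ⟨a1.of_eq hc rfl, k _ a2, k _ a3, k _ a4, k _ a5, k _ a6, k _ a7, k _ a8⟩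
  obtain ⟨K, Z, L, hc, hZ, e, hd⟩ := exists_point (B + 7)
  have h6 : IsCoprime K (6 * (3 * Z)) := by
    obtain ⟨x, hx⟩ := hd 2 Nat.prime_two (by omega)
    obtain ⟨y, hy⟩ := hd 3 Nat.prime_three (by omega)
    have c2 : IsCoprime K 2 := (show IsCoprime K (2 * x) from hx ▸ hc).of_mul_right_left
    have c3 : IsCoprime K 3 := (show IsCoprime K (3 * y) from hy ▸ hc).of_mul_right_left
    exact (c2.mul_right c3).mul_right (c3.mul_right hc)
  have hG : 0 < K ^ 4 + 6 * (162 * Z ^ 4) := by positivity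
  obtain ⟨l, hl, ho⟩ := exists_odd hG fun W k =>
    descent _ K (3 * Z) W rfl h6 (mul_ne_zero (by norm_num) hZ) (by rw [← k]; ring)
  have : Fact l.Prime := ⟨hl⟩
  have hl' : Prime (l : ℤ) := Nat.prime_iff_prime_int.1 hl
  have h1 : (l : ℤ) ∣ K ^ 4 + 6 * (162 * Z ^ 4) := by
    by_contra k
    rw [padicValInt.eq_zero_of_not_dvd k] at ho
    exact absurd ho (by decide)
  have hlZ : ¬(l : ℤ) ∣ Z := fun k =>
    hl'.not_isUnit (hc.isUnit_of_dvd' (hl'.dvd_of_dvd_pow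
      ((dvd_add_left (((dvd_pow k (by norm_num)).mul_left 162).mul_left 6)).1 h1)) k)
  have hB : B + 7 < l := by
    by_contra k
    exact hlZ (hd l hl (by omega))
  obtain ⟨g1, g2⟩ := oct_family hl' rfl rfl e h1 hG.ne' hlZ (not_dvd_of_lt (n := 2) (by omega) (by omega))
    (not_dvd_of_lt (n := 3) (by omega) (by omega)) (not_dvd_of_lt (n := 5) (by omega) (by omega))
    (not_dvd_of_lt (n := 7) (by omega) (by omega))
  refine ⟨l, _, hl, by omega, g2, ?_⟩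
  rw [padicValInt.mul (fun k => g1 (by rw [k]; exact dvd_zero _)) hG.ne',
    padicValInt.eq_zero_of_not_dvd g1, zero_add]
  exact ho

end Eight

theorem eight_main : {a : ℕ | (∀ Q : ℕ, 2 ≤ Q → Q ≤ 4 → a ∈ CQ Q) ∧
    0 < Module.rank ℤ (curve (12 * (a : ℚ))).toAffine.Point ∧
    ∀ p : ℕ, p.Prime → ¬p ^ 4 ∣ a}.Infinite := by
  refine Eight.oct_infinite.mono ?_
  rintro a ⟨ha, ⟨a1, a2, a3, a4, a5, a6, a7, a8⟩, hp⟩
  refine ⟨fun Q h2 h4 => ?_, by rw [mul_comm]; exact a8.rank_pos, hp⟩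
  interval_cases Q
  · exact mem_CQ (by norm_num) ha a1 (by simpa using a2) (by norm_num; exact a3)
      (by norm_num; exact a4)
  · exact mem_CQ (by norm_num) ha a1 (by simpa using a5) (by norm_num; exact a6)
      (by norm_num; exact a7)
  · refine mem_CQ (by norm_num) ha a1 (by simpa using a3) ?_ ?_
    · convert a1.scale two_ne_zero using 1
      norm_num
    · convert a3.scale two_ne_zero using 1
      push_cast
      ring

end Pool.Agent.Lib.MP_90cf6f_nt
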