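import Pool.Agent.Lib.MP_90cf6f_nt.More

/-! Five simultaneous quadratic twists from three squares in arithmetic progression. -/

namespace Pool.Agent.Lib.MP_90cf6f_nt

theorem exists_prime8 {c e m : ℤ} (hc : 0 < c) (hm : 0 < m) (n : ℕ) (hn : e < n) :
    ∃ (l : ℕ) (τ : ℤ), l.Prime ∧ n < l ∧ (l : ℤ) ∣ c ^ 2 * τ ^ 8 - e * c * τ ^ 4 + m ^ 2 ∧
      (¬(l : ℤ) ∣ 2 * c * m * (e ^ 2 - 4 * m ^ 2) →
        ¬(l : ℤ) ^ 2 ∣ c ^ 2 * τ ^ 8 - e * c * τ ^ 4 + m ^ 2) := by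
  set N : ℤ := (n.factorial : ℤ) with hN
  have hN0 : 0 < N := Int.natCast_pos.2 n.factorial_pos
  have hN1 : (n : ℤ) ≤ N := Int.ofNat_le.2 n.self_le_factorial
  have h1 : e < c * m ^ 4 * N ^ 4 := by
    have a1 : N ≤ N ^ 4 := le_self_pow₀ hN0 (by norm_num)
    have a2 : 1 ≤ c * m ^ 4 := mul_pos hc (by positivity)
    nlinarith
  set w : ℤ := 1 + N * (N ^ 3 * c * m ^ 2 * (c * m ^ 4 * N ^ 4 - e)) with hw
  have hw1 : 1 < w := by
    have := sub_pos.2 h1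
    rw [hw, lt_add_iff_pos_right]
    positivity
  obtain ⟨l, hl, hd⟩ := Nat.exists_prime_and_dvd (n := w.natAbs) (by omega)
  replace hd : (l : ℤ) ∣ w := Int.natCast_dvd.2 hd
  have hp : Prime (l : ℤ) := Nat.prime_iff_prime_int.1 hl
  have hln : n < l := by
    by_contra h
    have k : (l : ℤ) ∣ N := Int.natCast_dvd_natCast.2 ((hl.dvd_factorial).2 (not_lt.1 h))
    exact hp.not_dvd_one ((dvd_add_left (k.mul_right _)).1 hd)
  obtain ⟨k, h1⟩ : ∃ k : ℤ, (l : ℤ) ∣ c ^ 2 * k ^ 8 - e * c * k ^ 4 + m ^ 2 :=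
    ⟨m * N, (hd.mul_left (m ^ 2)).trans (dvd_of_eq (by rw [hw]; ring))⟩
  by_cases h2 : (l : ℤ) ^ 2 ∣ c ^ 2 * k ^ 8 - e * c * k ^ 4 + m ^ 2
  swap
  · exact ⟨l, k, hl, hln, h1, fun _ => h2⟩
  obtain ⟨u, hu⟩ : ∃ u : ℤ, c ^ 2 * (k + l) ^ 8 - e * c * (k + l) ^ 4 + m ^ 2 =
      (c ^ 2 * k ^ 8 - e * c * k ^ 4 + m ^ 2) + l * (2 ^ 2 * c * k ^ 3 * (2 * c * k ^ 4 - e)) +
        (l : ℤ) ^ 2 * u :=
    ⟨c ^ 2 * (28 * k ^ 6 + 56 * k ^ 5 * l + 70 * k ^ 4 * l ^ 2 + 56 * k ^ 3 * l ^ 3 +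
      28 * k ^ 2 * l ^ 4 + 8 * k * l ^ 5 + l ^ 6) - e * c * (6 * k ^ 2 + 4 * k * l + l ^ 2),
      by ring⟩
  refine ⟨l, k + l, hl, hln, ?_, fun h0 h3 => h0 ?_⟩
  · rw [hu]
    exact (h1.add (dvd_mul_right _ _)).add ((dvd_pow_self _ two_ne_zero).mul_right _)
  · rw [hu] at h3
    have h4 := (dvd_add_right h2).1 ((dvd_add_left (dvd_mul_right _ _)).1 h3)
    rw [sq, mul_dvd_mul_iff_left hp.ne_zero] at h4
    rcases hp.dvd_or_dvd h4 with h5 | h5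
    · rcases hp.dvd_or_dvd h5 with h6 | h6
      · rcases hp.dvd_or_dvd h6 with h7 | h7
        · exact (((hp.dvd_of_dvd_pow h7).mul_right _).mul_right _).mul_right _
        · exact ((h7.mul_left _).mul_right _).mul_right _
      · have h7 := hp.dvd_of_dvd_pow h6
        have h8 : (l : ℤ) ∣ m ^ 2 := (dvd_add_right (((dvd_pow h7 (by norm_num)).mul_left _).sub
          ((dvd_pow h7 (by norm_num)).mul_left _))).1 h1
        exact ((hp.dvd_of_dvd_pow h8).mul_left _).mul_right _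
    · refine Dvd.dvd.mul_left ?_ _
      exact ((h5.mul_right (2 * c * k ^ 4 - e)).sub (h1.mul_left 4)).trans (dvd_of_eq (by ring))

/-- Five simultaneous good quadratic twists. -/
def Five (u v w y t : ℚ) : Prop :=
  Good t ∧ Good (t * u ^ 2) ∧ Good (t * v ^ 2) ∧ Good (t * w ^ 2) ∧ Good (t * y ^ 2)

theorem five_family {p q r m K τ s A l : ℤ} (hl : Prime l) (e1 : p ^ 2 + m = q ^ 2)
    (e2 : q ^ 2 + m = r ^ 2) (hs : s = -(2 * p * K) ^ 2 * τ ^ 4)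
    (hA : A = s ^ 2 + (4 * q ^ 2 - 2 * m) * s + m ^ 2) (h1 : l ∣ A) (h0 : A ≠ 0) (h2 : ¬l ∣ 2)
    (hp : ¬l ∣ p) (hq : ¬l ∣ q) (hr : ¬l ∣ r) (hm : ¬l ∣ m) (hK : ¬l ∣ K) :
    ¬l ∣ (2 * m * p * q) ^ 2 * (A + 4 * m * s) ∧
    Five (p * q) (p * r) K (K * m) (A * ((2 * m * p * q) ^ 2 * (A + 4 * m * s)) : ℤ) := by
  have nd : ∀ {x y : ℤ}, ¬l ∣ x → ¬l ∣ y → ¬l ∣ x * y := fun hx hy e =>
    (hl.dvd_or_dvd e).elim hx hy
  have np : ∀ {x : ℤ} (n : ℕ), ¬l ∣ x → ¬l ∣ x ^ n := fun n hx e => hx (hl.dvd_of_dvd_pow e)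
  have ng : ∀ {x : ℤ}, ¬l ∣ x → ¬l ∣ -x := fun hx e => hx (dvd_neg.1 e)
  have hs' : ¬l ∣ s := fun e => np 2 hm ((dvd_add_right
    ((dvd_pow e two_ne_zero).add (e.mul_left _))).1 (hA ▸ h1))
  have hτ : ¬l ∣ τ := fun e => hs' (hs ▸ (dvd_pow e (by norm_num)).mul_left _)
  have h4 : ¬l ∣ 4 := nd h2 h2
  have hB : ¬l ∣ A + 4 * m * s := fun e => nd (nd h4 hm) hs' ((dvd_add_right h1).1 e)
  have z : ∀ {x : ℤ}, ¬l ∣ x → x ≠ 0 := fun h e => h (e ▸ dvd_zero l)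
  have zq : ∀ {x : ℤ}, ¬l ∣ x → (x : ℚ) ≠ 0 := fun h => by exact_mod_cast z h
  have q0 := z hq
  have r0 := z hr
  have m0 := z hm
  have s0 := z hs'
  have B0 := z hB
  have hs2 : (s : ℚ) = -(2 * p * K) ^ 2 * τ ^ 4 := by exact_mod_cast hs
  refine ⟨nd (np 2 (nd (nd (nd h2 hm) hp) hq)) hB, ?_, ?_, ?_, ?_, ?_⟩
  · exact (good_of_dvd (x := q ^ 2 * m * A) (x' := -(p ^ 2 * m * (A + 4 * m * s)))
      (z := m * (s + m)) (by linear_combination (-m * (A + 4 * m * s)) * e1 + m ^ 2 * hA)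
      (h1.mul_left _) (by positivity) (ng (nd (nd (np 2 hp) hm) hB))).isog.of_eq one_ne_zero
      (by push_cast; ring)
  · refine ((good_of_dvd (x := -(m * s * A)) (x' := m * s * (A + 4 * m * s)) (z := 2 * m * s)
      (by ring) (h1.mul_left _).neg_right (neg_ne_zero.2 (by positivity))
      (nd (nd hm hs') hB)).isog.scale (zq (nd hp hq))).of_eq
      (zq (nd (nd (nd h2 hp) hK) (np 2 hτ))) ?_
    push_cast
    generalize (A : ℚ) + 4 * m * s = B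
    rw [hs2]; ring
  · exact ((good_of_dvd (x := r ^ 2 * m * A) (x' := -(q ^ 2 * m * (A + 4 * m * s)))
      (z := m * (s - m)) (by linear_combination (-m * A) * e2 + m ^ 2 * hA)
      (h1.mul_left _) (by positivity) (ng (nd (nd (np 2 hq) hm) hB))).isog.scale (zq hp)).of_eq
      one_ne_zero (by push_cast; ring)
  · refine (good_of_dvd (x := A * (A + 4 * m * s)) (x' := -(4 * 4 * q ^ 2 * m ^ 2 * s))
      (z := s ^ 2 + 4 * q ^ 2 * s - m ^ 2) (by rw [hA]; ring) (h1.mul_right _) (by positivity)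
      (ng (nd (nd (nd (nd h4 h4) (np 2 hq)) (np 2 hm)) hs'))).of_eq (zq (nd h2 hτ)) ?_
    push_cast
    generalize (A : ℚ) + 4 * m * s = B
    rw [hs2]; ring
  · refine ((good_of_dvd (x := A * (A + 4 * m * s)) (x' := -(4 * 4 * q ^ 2 * s ^ 3))
      (z := m ^ 2 + 4 * q ^ 2 * s - s ^ 2) (by rw [hA]; ring) (h1.mul_right _) (by positivity)
      (ng (nd (nd (nd h4 h4) (np 2 hq)) (np 3 hs')))).scale (zq hm)).of_eq
      (zq (nd (nd (nd h4 hp) hK) (np 3 hτ))) ?_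
    push_cast
    generalize (A : ℚ) + 4 * m * s = B
    rw [hs2]; ring

theorem five_infinite {p q r m K : ℕ} (hp : 1 ≤ p) (hm : 1 ≤ m) (hK : 1 ≤ K)
    (e1 : p ^ 2 + m = q ^ 2) (e2 : q ^ 2 + m = r ^ 2) :
    {a : ℕ | 1 ≤ a ∧ Five (p * q) (p * r) K (K * m) a ∧
      ∀ l : ℕ, l.Prime → ¬l ^ 4 ∣ a}.Infinite := by
  refine infinite_of_primes (fun h => h.1.1 rfl) ?_ ?_ fun B => ?_
  · rintro t ⟨h1, h2, h3, h4, h5⟩
    exact ⟨h1.isog, by convert h2.isog using 1; ring, by convert h3.isog using 1; ring,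
      by convert h4.isog using 1; ring, by convert h5.isog using 1; ring⟩
  · rintro t c ⟨h1, h2, h3, h4, h5⟩ hc
    exact ⟨h1.of_eq hc rfl, h2.of_eq hc (by ring), h3.of_eq hc (by ring), h4.of_eq hc (by ring),
      h5.of_eq hc (by ring)⟩
  have hq : 0 < q := by
    rcases Nat.eq_zero_or_pos q with rfl | h
    · omega
    · exact h
  have hr : 0 < r := by
    rcases Nat.eq_zero_or_pos r with rfl | h
    · omega
    · exact h
  have e1' : (p : ℤ) ^ 2 + m = q ^ 2 := by exact_mod_cast e1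
  have e2' : (q : ℤ) ^ 2 + m = r ^ 2 := by exact_mod_cast e2
  obtain ⟨l, τ, hl, hB, h1, h2⟩ := exists_prime8 (c := (2 * p * K) ^ 2) (e := 4 * q ^ 2 - 2 * m)
    (m := m) (by positivity) (by exact_mod_cast hm) (B + p + q + r + m + K + 4 * q ^ 2 + 2)
    (by push_cast; omega)
  have hl' : Prime (l : ℤ) := Nat.prime_iff_prime_int.1 hl
  have n2 : ¬(l : ℤ) ∣ 2 := not_dvd_of_lt (n := 2) (by norm_num) (by omega)
  have np : ¬(l : ℤ) ∣ p := not_dvd_of_lt hp (by omega)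
  have nq : ¬(l : ℤ) ∣ q := not_dvd_of_lt hq (by omega)
  have nr : ¬(l : ℤ) ∣ r := not_dvd_of_lt hr (by omega)
  have nm : ¬(l : ℤ) ∣ m := not_dvd_of_lt hm (by omega)
  have nK : ¬(l : ℤ) ∣ K := not_dvd_of_lt hK (by omega)
  have nd : ∀ {x y : ℤ}, ¬(l : ℤ) ∣ x → ¬(l : ℤ) ∣ y → ¬(l : ℤ) ∣ x * y := fun hx hy e =>
    (hl'.dvd_or_dvd e).elim hx hy
  have npw : ∀ {x : ℤ} (n : ℕ), ¬(l : ℤ) ∣ x → ¬(l : ℤ) ∣ x ^ n := fun n hx e =>
    hx (hl'.dvd_of_dvd_pow e)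
  have h3 := h2 (nd (nd (nd n2 (npw 2 (nd (nd n2 np) nK))) nm) (by
    convert npw 2 (nd (nd (npw 2 n2) np) nq) using 2
    linear_combination (-16 * (q : ℤ) ^ 2) * e1'))
  obtain ⟨h4, h5⟩ := five_family (τ := τ) hl' e1' e2' rfl (by ring) h1
    (fun e => h3 (e ▸ dvd_zero _)) n2 np nq nr nm nK
  exact ⟨l, _, hl, by omega, by exact_mod_cast h5, h1.mul_right _,
    fun e => h3 (hl'.pow_dvd_of_dvd_mul_right 2 h4 e)⟩

theorem five_main {p q r m K L : ℕ} (hp : 1 ≤ p) (hm : 1 ≤ m) (hK : 1 ≤ K) (hL : 1 ≤ L)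
    (e1 : p ^ 2 + m = q ^ 2) (e2 : q ^ 2 + m = r ^ 2) (h : IsSquare (K * L * m)) :
    {a : ℕ | a ∈ CQ ((p * q) ^ 2) ∩ CQ ((p * r) ^ 2) ∩ CQ (K ^ 2) ∩ CQ (L ^ 2) ∧
      ∀ l : ℕ, l.Prime → ¬l ^ 4 ∣ a}.Infinite := by
  refine (five_infinite hp hm hK e1 e2).mono ?_
  rintro a ⟨ha, ⟨h1, h2, h3, h4, h5⟩, h6⟩
  have hq : 0 < q := by
    rcases Nat.eq_zero_or_pos q with rfl | h
    · omega
    · exact h
  have hr : 0 < r := by
    rcases Nat.eq_zero_or_pos r with rfl | h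
    · omega
    · exact h
  obtain ⟨c, hc⟩ := h
  have hc' : (K : ℚ) * L * m = c * c := by exact_mod_cast hc
  have c0 : (c : ℚ) ≠ 0 := by
    intro e
    rw [e, mul_zero] at hc'
    exact absurd hc' (by positivity)
  refine ⟨⟨⟨⟨h1.pow_rank (Nat.mul_pos hp hq) (by exact_mod_cast h2) ha,
    h1.pow_rank (Nat.mul_pos hp hr) (by exact_mod_cast h3) ha⟩, h1.pow_rank hK h4 ha⟩,
    h1.pow_rank hL ((h5.scale (c := L) (by positivity)).of_eq c0 ?_) ha⟩, h6⟩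
  linear_combination (a * L ^ 2 * (K * L * m + c * c) : ℚ) * hc'

end Pool.Agent.Lib.MP_90cf6f_nt
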