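import Pool.Agent.Lib.MP_90cf6f_nt.Basic

namespace Pool.Agent.Lib.MP_90cf6f_nt

/-- Four simultaneous good twists. -/
def Four (Q R t : ℚ) : Prop :=
  Good t ∧ Good (t * Q ^ 2) ∧ Good (t * R) ∧ Good (t * R * Q ^ 2)

theorem Four.isog {Q R t : ℚ} (h : Four Q R t) : Four Q R (-4 * t) := by
  obtain ⟨h1, h2, h3, h4⟩ := h
  refine ⟨h1.isog, ?_, ?_, ?_⟩
  · convert h2.isog using 1; ring
  · convert h3.isog using 1; ring
  · convert h4.isog using 1; ring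

theorem Four.scale {Q R t c : ℚ} (h : Four Q R t) (hc : c ≠ 0) : Four Q R (t * c ^ 4) := by
  obtain ⟨h1, h2, h3, h4⟩ := h
  refine ⟨h1.scale hc, ?_, ?_, ?_⟩
  · convert h2.scale hc using 1; ring
  · convert h3.scale hc using 1; ring
  · convert h4.scale hc using 1; ring

theorem four_of {Q R k p q r s M α β Y : ℚ} (hQ : Q ≠ 0) (hR : R ≠ 0) (hk : k ≠ 0) (hp : p ≠ 0)
    (hq : q ≠ 0) (hr : r ≠ 0) (hs : s ≠ 0) (hY : Y ≠ 0) (e1 : β + M = 2 * r ^ 2)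
    (e2 : β - M = 2 * Q * s ^ 2) (e3 : α + M = 2 * p ^ 2) (e4 : α - M = 2 * Q * q ^ 2)
    (e5 : k ^ 4 * (α ^ 2 - Y ^ 2) = R * (β ^ 2 - Y ^ 2))
    (hT : (Y ^ 2 - M ^ 2) * (β ^ 2 - Y ^ 2) ≠ 0) (n1 : Y ^ 2 + M * β ≠ 0)
    (n2 : Y ^ 2 - M * β ≠ 0) (n3 : Y ^ 2 + M * α ≠ 0) (n4 : Y ^ 2 - M * α ≠ 0) :
    Four Q R ((Y ^ 2 - M ^ 2) * (β ^ 2 - Y ^ 2) * Y ^ 2) := by
  have hT' : (Y ^ 2 - M ^ 2) * (α ^ 2 - Y ^ 2) ≠ 0 := by
    intro h
    apply mul_ne_zero hR hT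
    linear_combination k ^ 4 * h - (Y ^ 2 - M ^ 2) * e5
  refine ⟨?_, ?_, ?_, ?_⟩
  · convert good_of_pair (N := Y) (c := 1) (x := (Y + M) * (β + Y)) (x' := (Y - M) * (β - Y))
      (z := 2 * r) hY one_ne_zero (by convert hT using 1; ring) (by positivity)
      (by linear_combination 2 * Y * e1) (fun h => n1 (by linear_combination h / 2)) using 1
    ring
  · convert good_of_pair (N := Y) (c := Q) (x := (Y - M) * (β + Y)) (x' := (Y + M) * (β - Y))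
      (z := 2 * Q * s) hY hQ (by convert hT using 1; ring) (by positivity)
      (by linear_combination 2 * Q * Y * e2) (fun h => n2 (by linear_combination h / 2)) using 1
    ring
  · convert good_of_pair (N := Y) (c := k ^ 2) (x := (Y + M) * (α + Y)) (x' := (Y - M) * (α - Y))
      (z := 2 * k * p) hY (by positivity) (by convert hT' using 1; ring) (by positivity)
      (by linear_combination 2 * k ^ 2 * Y * e3) (fun h => n3 (by linear_combination h / 2))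
      using 1
    linear_combination (-(Y ^ 2 - M ^ 2) * Y ^ 2) * e5
  · convert good_of_pair (N := Y) (c := Q * k ^ 2) (x := (Y - M) * (α + Y))
      (x' := (Y + M) * (α - Y)) (z := 2 * Q * k * q) hY (by positivity)
      (by convert hT' using 1; ring) (by positivity)
      (by linear_combination 2 * Q * k ^ 2 * Y * e4) (fun h => n4 (by linear_combination h / 2))
      using 1
    linear_combination (-(Y ^ 2 - M ^ 2) * Y ^ 2 * Q ^ 2) * e5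

theorem family {Q R k : ℤ} {l : ℕ} (hl : l.Prime) (h1 : (l : ℤ) ∣ k ^ 4 + R)
    (h2 : ¬(l : ℤ) ^ 2 ∣ k ^ 4 + R) (u2 : (2 : ZMod l) ≠ 0) (uQ : (Q : ZMod l) ≠ 0)
    (uR : (R : ZMod l) ≠ 0) (ug : (1 + Q : ZMod l) ≠ 0)
    (uG : ((1 + Q) ^ 2 + 4 * Q : ZMod l) ≠ 0) :
    ∃ a : ℤ, Four Q R a ∧ (l : ℤ) ∣ a ∧ ¬(l : ℤ) ^ 2 ∣ a := by
  have := Fact.mk hl
  obtain ⟨A, hA⟩ : ∃ A, A = k ^ 4 := ⟨_, rfl⟩
  obtain ⟨g, hg⟩ : ∃ g, g = 1 + Q := ⟨_, rfl⟩
  obtain ⟨S, hS⟩ : ∃ S, S = A + R := ⟨_, rfl⟩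
  obtain ⟨D, hD⟩ : ∃ D, D = A - R := ⟨_, rfl⟩
  obtain ⟨E, hE⟩ : ∃ E, E = 16 * A * R * Q - g ^ 2 * D ^ 2 := ⟨_, rfl⟩
  obtain ⟨F, hF⟩ : ∃ F, F = 4 * g * S * D := ⟨_, rfl⟩
  obtain ⟨M, hM⟩ : ∃ M, M = (1 - Q) * (E ^ 2 - Q * F ^ 2) := ⟨_, rfl⟩
  obtain ⟨α, hα⟩ : ∃ α, α = g * (E ^ 2 + Q * F ^ 2) + 4 * Q * E * F := ⟨_, rfl⟩
  obtain ⟨β, hβ⟩ : ∃ β, β = g * (E ^ 2 + Q * F ^ 2) - 4 * Q * E * F := ⟨_, rfl⟩
  obtain ⟨Y, hY⟩ : ∃ Y, Y = g * (E ^ 2 - 256 * A * R * Q ^ 2 * S ^ 2) := ⟨_, rfl⟩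
  obtain ⟨W, hW⟩ : ∃ W, W = 32 * A * Q * g * (g ^ 2 * D ^ 2 + 16 * R ^ 2 * Q) := ⟨_, rfl⟩
  rw [← hA, ← hS] at h1 h2
  have f1 : β - Y = S * W := by
    rw [hβ, hY, hW, hF, hE, hS, hD]; ring
  have f2 : α - Y = 32 * R * Q * g * S * (g ^ 2 * D ^ 2 + 16 * A ^ 2 * Q) := by
    rw [hα, hY, hF, hE, hS, hD]; ring
  have f3 : β + Y = -2 * g * E * (g ^ 2 * D ^ 2 + 16 * A ^ 2 * Q) := by
    rw [hβ, hY, hF, hE, hS, hD]; ring
  have f4 : α + Y = -2 * g * E * (g ^ 2 * D ^ 2 + 16 * R ^ 2 * Q) := by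
    rw [hα, hY, hF, hE, hS, hD]; ring
  have f5 : k ^ 4 * (α ^ 2 - Y ^ 2) = R * (β ^ 2 - Y ^ 2) := by
    rw [← hA, sq_sub_sq, sq_sub_sq, f1, f2, f3, f4, hW]; ring
  have zS : (S : ZMod l) = 0 := (ZMod.intCast_zmod_eq_zero_iff_dvd _ _).2 h1
  have zA : (A : ZMod l) = -R := by
    rw [hS] at zS; push_cast at zS; linear_combination zS
  have zg : (g : ZMod l) = 1 + Q := by rw [hg]; push_cast; rfl
  have zD : (D : ZMod l) = -2 * R := by rw [hD]; push_cast; rw [zA]; ring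
  have zE : (E : ZMod l) = -(2 ^ 2 * R ^ 2 * ((1 + Q) ^ 2 + 4 * Q)) := by
    rw [hE]; push_cast; rw [zA, zg, zD]; ring
  have uE : (E : ZMod l) ≠ 0 := by
    rw [zE]; exact neg_ne_zero.2 (mul_ne_zero (mul_ne_zero (pow_ne_zero _ u2) (pow_ne_zero _ uR)) uG)
  have zF : (F : ZMod l) = 0 := by rw [hF]; push_cast; rw [zS]; ring
  have zM : (M : ZMod l) = (1 - Q) * E ^ 2 := by rw [hM]; push_cast; rw [zF]; ring
  have zα : (α : ZMod l) = (1 + Q) * E ^ 2 := by rw [hα]; push_cast; rw [zF, zg]; ring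
  have zβ : (β : ZMod l) = (1 + Q) * E ^ 2 := by rw [hβ]; push_cast; rw [zF, zg]; ring
  have zY : (Y : ZMod l) = (1 + Q) * E ^ 2 := by rw [hY]; push_cast; rw [zS, zg]; ring
  have zW : (W : ZMod l) = -(2 ^ 7 * R ^ 3 * Q * (1 + Q) * ((1 + Q) ^ 2 + 4 * Q)) := by
    rw [hW]; push_cast; rw [zA, zg, zD]; ring
  have ne : ∀ {X : ℤ}, (X : ZMod l) ≠ 0 → (X : ℚ) ≠ 0 := by
    intro X h k
    have : X = 0 := by exact_mod_cast k
    exact h (by rw [this]; simp)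
  have uk : (k : ZMod l) ≠ 0 := by
    intro h
    rw [hA] at zA
    push_cast at zA
    rw [h] at zA
    exact uR (by linear_combination zA)
  have hS0 : (S : ℚ) ≠ 0 := by
    intro k
    have : S = 0 := by exact_mod_cast k
    exact h2 (by rw [this]; exact dvd_zero _)
  obtain ⟨U, hU⟩ : ∃ U, U = (Y ^ 2 - M ^ 2) * (β + Y) * W * Y ^ 2 := ⟨_, rfl⟩
  have uU : (U : ZMod l) ≠ 0 := by
    have : (U : ZMod l) = 2 ^ 3 * Q * (1 + Q) ^ 3 * E ^ 10 * W := by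
      rw [hU]; push_cast; rw [zY, zM, zβ]; ring
    rw [this, zW]
    simp [u2, uQ, uR, ug, uG, uE]
  have eU : (Y ^ 2 - M ^ 2) * (β ^ 2 - Y ^ 2) * Y ^ 2 = S * U := by
    rw [hU, sq_sub_sq β, f1]; ring
  refine ⟨S * U, ?_, h1.mul_right _, fun h => ?_⟩
  · have eU' : ((Y : ℚ) ^ 2 - M ^ 2) * (β ^ 2 - Y ^ 2) * Y ^ 2 = ((S * U : ℤ) : ℚ) := by
      exact_mod_cast eU
    rw [← eU']
    have uY : (Y : ZMod l) ≠ 0 := by rw [zY]; simp [ug, uE]
    refine four_of (k := k) (p := ((E + Q * F : ℤ) : ℚ)) (q := ((F + E : ℤ) : ℚ))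
      (r := ((E - Q * F : ℤ) : ℚ)) (s := ((F - E : ℤ) : ℚ)) (α := α) (ne uQ) (ne uR) (ne uk)
      (ne (by push_cast; rw [zF]; simpa using uE)) (ne (by push_cast; rw [zF]; simpa using uE))
      (ne (by push_cast; rw [zF]; simpa using uE)) (ne (by push_cast; rw [zF]; simpa using uE))
      (ne uY) ?_ ?_ ?_ ?_ (by exact_mod_cast f5) ?_ ?_ ?_ ?_ ?_
    · rw [hβ, hM, hg]; push_cast; ring
    · rw [hβ, hM, hg]; push_cast; ring
    · rw [hα, hM, hg]; push_cast; ring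
    · rw [hα, hM, hg]; push_cast; ring
    · intro h
      rw [h, zero_mul] at eU'
      push_cast at eU'
      exact mul_ne_zero hS0 (ne uU) eU'.symm
    · have := ne (X := Y ^ 2 + M * β) (by
        have : ((Y ^ 2 + M * β : ℤ) : ZMod l) = 2 * (1 + Q) * E ^ 4 := by
          push_cast; rw [zY, zM, zβ]; ring
        rw [this]; simp [u2, ug, uE])
      exact_mod_cast this
    · have := ne (X := Y ^ 2 - M * β) (by
        have : ((Y ^ 2 - M * β : ℤ) : ZMod l) = 2 * Q * (1 + Q) * E ^ 4 := by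
          push_cast; rw [zY, zM, zβ]; ring
        rw [this]; simp [u2, uQ, ug, uE])
      exact_mod_cast this
    · have := ne (X := Y ^ 2 + M * α) (by
        have : ((Y ^ 2 + M * α : ℤ) : ZMod l) = 2 * (1 + Q) * E ^ 4 := by
          push_cast; rw [zY, zM, zα]; ring
        rw [this]; simp [u2, ug, uE])
      exact_mod_cast this
    · have := ne (X := Y ^ 2 - M * α) (by
        have : ((Y ^ 2 - M * α : ℤ) : ZMod l) = 2 * Q * (1 + Q) * E ^ 4 := by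
          push_cast; rw [zY, zM, zα]; ring
        rw [this]; simp [u2, uQ, ug, uE])
      exact_mod_cast this
  · have hp : Prime (l : ℤ) := Nat.prime_iff_prime_int.1 hl
    exact h2 (hp.pow_dvd_of_dvd_mul_right 2
      (fun k => uU ((ZMod.intCast_zmod_eq_zero_iff_dvd _ _).2 k)) h)

theorem exists_prime (R B : ℕ) (hR : 1 ≤ R) : ∃ (l : ℕ) (k : ℤ), l.Prime ∧ B < l ∧
    (l : ℤ) ∣ k ^ 4 + R ∧ ¬(l : ℤ) ^ 2 ∣ k ^ 4 + R := by
  set n := B + R + 2 with hn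
  set N := R ^ 3 * n.factorial ^ 4 + 1 with hN
  have hN1 : N ≠ 1 := by
    have := n.factorial_pos
    have : 0 < R ^ 3 * n.factorial ^ 4 := by positivity
    omega
  have hl := Nat.minFac_prime hN1
  set l := N.minFac with hl0
  have hd : l ∣ N := Nat.minFac_dvd N
  have hln : n < l := by
    by_contra h
    have k : l ∣ n.factorial := (hl.dvd_factorial).2 (not_lt.1 h)
    have k2 : l ∣ R ^ 3 * n.factorial ^ 4 := (dvd_pow k (by norm_num)).mul_left _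
    exact hl.one_lt.ne' (Nat.dvd_one.1 ((Nat.dvd_add_right k2).1 hd))
  set k : ℤ := R * n.factorial with hk
  have h1 : (l : ℤ) ∣ k ^ 4 + R := by
    have : k ^ 4 + R = R * (N : ℤ) := by rw [hk, hN]; push_cast; ring
    rw [this]
    exact (Int.natCast_dvd_natCast.2 hd).mul_left _
  by_cases h2 : (l : ℤ) ^ 2 ∣ k ^ 4 + R
  swap
  · exact ⟨l, k, hl, by omega, h1, h2⟩
  have e : (k + l) ^ 4 + R = (k ^ 4 + R) + l * (4 * k ^ 3) +
      (l : ℤ) ^ 2 * (6 * k ^ 2 + 4 * k * l + l ^ 2) := by ring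
  refine ⟨l, k + l, hl, by omega, ?_, fun h3 => ?_⟩
  · rw [e]
    exact (h1.add (dvd_mul_right _ _)).add ((dvd_pow_self _ two_ne_zero).mul_right _)
  · rw [e] at h3
    have h4 := (dvd_add_right h2).1 ((dvd_add_left (dvd_mul_right _ _)).1 h3)
    have hp : Prime (l : ℤ) := Nat.prime_iff_prime_int.1 hl
    rw [sq, mul_dvd_mul_iff_left hp.ne_zero] at h4
    rcases hp.dvd_or_dvd h4 with h5 | h5
    · have h6 : (l : ℤ) ∣ 2 := hp.dvd_of_dvd_pow (n := 2) (by simpa using h5)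
      have := Int.le_of_dvd (by norm_num) h6
      omega
    · have h6 : (l : ℤ) ∣ R :=
        (dvd_add_right (dvd_pow (hp.dvd_of_dvd_pow h5) (by norm_num))).1 h1
      have := Int.le_of_dvd (by omega) h6
      omega

theorem reduce {Q R : ℚ} {l : ℕ} (hl : l.Prime) (a : ℕ) : Four Q R a → l ∣ a → ¬l ^ 2 ∣ a →
    ∃ b : ℕ, Four Q R b ∧ l ∣ b ∧ ∀ p : ℕ, p.Prime → ¬p ^ 4 ∣ b := by
  induction a using Nat.strong_induction_on with
  | _ a ih =>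
    intro h1 h2 h3
    by_cases h : ∀ p : ℕ, p.Prime → ¬p ^ 4 ∣ a
    · exact ⟨a, h1, h2, h⟩
    push Not at h
    obtain ⟨p, hp, b, rfl⟩ := h
    have hb : 0 < b := by
      rcases Nat.eq_zero_or_pos b with rfl | hb
      · exact absurd (by simp) h3
      · exact hb
    have hp0 : (p : ℚ) ≠ 0 := by exact_mod_cast hp.ne_zero
    refine ih b ?_ ?_ ?_ fun k => h3 (k.mul_left _)
    · have : 1 < p ^ 4 := Nat.one_lt_pow (by norm_num) hp.one_lt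
      nlinarith
    · convert h1.scale (inv_ne_zero hp0) using 1
      push_cast
      field_simp
    · rcases (Nat.Prime.dvd_mul hl).1 h2 with k | k
      · have : l = p := (Nat.prime_dvd_prime_iff_eq hl hp).1 (hl.dvd_of_dvd_pow k)
        subst this
        exact absurd ((pow_dvd_pow l (by norm_num)).mul_right b) h3
      · exact k

theorem Good.pow_rank {a Q : ℕ} (hQ : 1 ≤ Q) (h1 : Good a) (h2 : Good (a * (Q : ℚ) ^ 2))
    (ha : 1 ≤ a) : a ∈ CQ (Q ^ 2) := by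
  refine ⟨ha, fun i => Good.rank_pos ?_⟩
  have hQ0 : (Q : ℚ) ^ (i / 2) ≠ 0 := by positivity
  rcases Nat.mod_two_eq_zero_or_one i with h | h
  · convert h1.scale hQ0 using 1
    push_cast
    rw [← pow_mul, ← pow_mul]
    congr 2
    omega
  · convert h2.scale hQ0 using 1
    push_cast
    rw [← pow_mul, ← pow_mul, mul_assoc, ← pow_add]
    congr 2
    omega

theorem main4 (Q R : ℕ) (hQ : 1 ≤ Q) (hR : 1 ≤ R) :
    {a : ℕ | 1 ≤ a ∧ Four Q R a ∧ ∀ p : ℕ, p.Prime → ¬p ^ 4 ∣ a}.Infinite := by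
  refine Set.infinite_of_forall_exists_gt fun B => ?_
  obtain ⟨l, k, hl, hB, h1, h2⟩ := exists_prime R (B + R + ((1 + Q) ^ 2 + 4 * Q) + 2) hR
  have nz : ∀ n : ℕ, 0 < n → n < l → (n : ZMod l) ≠ 0 := fun n n0 n1 h =>
    absurd (Nat.le_of_dvd n0 ((ZMod.natCast_eq_zero_iff _ _).1 h)) (not_le.2 n1)
  have hsq : 1 + Q ≤ (1 + Q) ^ 2 := Nat.le_self_pow two_ne_zero _
  obtain ⟨a, f1, f2, f3⟩ := family (Q := Q) (R := R) hl h1 h2
    (by exact_mod_cast nz 2 (by norm_num) (by omega))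
    (by exact_mod_cast nz Q hQ (by omega)) (by exact_mod_cast nz R hR (by omega))
    (by exact_mod_cast nz (1 + Q) (by omega) (by omega))
    (by exact_mod_cast nz ((1 + Q) ^ 2 + 4 * Q) (by omega) (by omega))
  push_cast at f1
  obtain ⟨a', g1, g2, g3⟩ : ∃ a' : ℕ, Four Q R a' ∧ l ∣ a' ∧ ¬l ^ 2 ∣ a' := by
    rcases le_total 0 a with h | h
    · lift a to ℕ using h
      exact ⟨a, by simpa using f1, by exact_mod_cast f2, by exact_mod_cast f3⟩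
    · obtain ⟨b, hb⟩ := Int.eq_ofNat_of_zero_le (a := -4 * a) (by omega)
      refine ⟨b, ?_, ?_, fun k => f3 ?_⟩
      · convert f1.isog using 1
        exact_mod_cast hb.symm
      · have : (l : ℤ) ∣ b := hb ▸ f2.mul_left _
        exact_mod_cast this
      · have k2 : (l : ℤ) ^ 2 ∣ -4 * a := by rw [hb]; exact_mod_cast k
        have hp : Prime (l : ℤ) := Nat.prime_iff_prime_int.1 hl
        refine hp.pow_dvd_of_dvd_mul_left 2 (fun k3 => ?_) k2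
        have h6 : (l : ℤ) ∣ 2 := hp.dvd_of_dvd_pow (n := 2) (by simpa using k3)
        have := Int.le_of_dvd (by norm_num) h6
        omega
  obtain ⟨b, ⟨r1, r2, r3, r4⟩, r5, r6⟩ := reduce hl a' g1 g2 g3
  have hb : 1 ≤ b := by
    have := r1.1
    rcases Nat.eq_zero_or_pos b with rfl | hb
    · simp at this
    · exact hb
  refine ⟨b, ⟨hb, ⟨r1, r2, r3, r4⟩, r6⟩, ?_⟩
  have := Nat.le_of_dvd hb r5
  omega

theorem main (Q R : ℕ) (hQ : 1 ≤ Q) (hR : 1 ≤ R) :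
    {a : ℕ | a ∈ CQ (Q ^ 2) ∧ a * R ∈ CQ (Q ^ 2) ∧ ∀ p : ℕ, p.Prime → ¬p ^ 4 ∣ a}.Infinite := by
  refine (main4 Q R hQ hR).mono ?_
  rintro b ⟨hb, ⟨r1, r2, r3, r4⟩, r6⟩
  exact ⟨r1.pow_rank hQ r2 hb, Good.pow_rank hQ (by exact_mod_cast r3)
    (by exact_mod_cast r4) (Nat.mul_pos hb hR), r6⟩

end Pool.Agent.Lib.MP_90cf6f_nt
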