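import Pool.Agent.Lib.MP_90cf6f_nt.Main

/-! More than four simultaneous quartic twists of positive rank. -/

namespace Pool.Agent.Lib.MP_90cf6f_nt

theorem good_of_dvd {x x' z l : ℤ} (h : x + x' = z ^ 2) (h1 : l ∣ x) (h0 : x ≠ 0)
    (h2 : ¬l ∣ x') : Good ((x * x' : ℤ) : ℚ) := by
  have h3 : x' ≠ 0 := fun e => h2 (e ▸ dvd_zero l)
  refine ⟨by exact_mod_cast mul_ne_zero h0 h3, x, x', z, by push_cast; ring, by exact_mod_cast h,
    ?_, ?_⟩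
  · intro e
    have e' : z = 0 := by exact_mod_cast e
    have : l ∣ x + x' := by rw [h, e']; simp
    exact h2 ((dvd_add_right h1).1 this)
  · intro e
    have e' : x = x' := by exact_mod_cast e
    exact h2 (e' ▸ h1)

theorem Good.of_eq {t t' c : ℚ} (h : Good t) (hc : c ≠ 0) (e : t = t' * c ^ 4) : Good t' := by
  convert h.scale (inv_ne_zero hc) using 1
  rw [e]; field_simp

/-- From one prime at a time to infinitely many fourth-power-free numbers. -/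
theorem infinite_of_primes {P : ℚ → Prop} (h0 : ¬P 0) (hi : ∀ t, P t → P (-4 * t))
    (hs : ∀ t c, P (t * c ^ 4) → c ≠ 0 → P t)
    (h : ∀ B : ℕ, ∃ (l : ℕ) (a : ℤ), l.Prime ∧ B < l ∧ P a ∧ (l : ℤ) ∣ a ∧ ¬(l : ℤ) ^ 2 ∣ a) :
    {a : ℕ | 1 ≤ a ∧ P a ∧ ∀ p : ℕ, p.Prime → ¬p ^ 4 ∣ a}.Infinite := by
  refine Set.infinite_of_forall_exists_gt fun B => ?_
  obtain ⟨l, a, hl, hB, f1, f2, f3⟩ := h (B + 2)
  obtain ⟨a', g1, g2, g3⟩ : ∃ a' : ℕ, P a' ∧ l ∣ a' ∧ ¬l ^ 2 ∣ a' := by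
    rcases le_total 0 a with h | h
    · lift a to ℕ using h
      exact ⟨a, by simpa using f1, by exact_mod_cast f2, by exact_mod_cast f3⟩
    · obtain ⟨b, hb⟩ := Int.eq_ofNat_of_zero_le (a := -4 * a) (by omega)
      refine ⟨b, ?_, ?_, fun k => f3 ?_⟩
      · convert hi _ f1 using 1
        exact_mod_cast hb.symm
      · have : (l : ℤ) ∣ b := hb ▸ f2.mul_left _
        exact_mod_cast this
      · have k2 : (l : ℤ) ^ 2 ∣ -4 * a := by rw [hb]; exact_mod_cast k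
        have hp : Prime (l : ℤ) := Nat.prime_iff_prime_int.1 hl
        refine hp.pow_dvd_of_dvd_mul_left 2 (fun k3 => ?_) k2
        have h6 : (l : ℤ) ∣ 2 := hp.dvd_of_dvd_pow (n := 2) (by simpa using k3)
        have := Int.le_of_dvd (by norm_num) h6
        omega
  have red : ∀ a : ℕ, P a → l ∣ a → ¬l ^ 2 ∣ a →
      ∃ b : ℕ, P b ∧ l ∣ b ∧ ∀ p : ℕ, p.Prime → ¬p ^ 4 ∣ b := fun a => by
    induction a using Nat.strong_induction_on with
    | _ a ih =>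
      intro h1 h2 h3
      by_cases h : ∀ p : ℕ, p.Prime → ¬p ^ 4 ∣ a
      · exact ⟨a, h1, h2, h⟩
      push Not at h
      obtain ⟨p, hp, b, rfl⟩ := h
      have hb : 0 < b := by
        rcases Nat.eq_zero_or_pos b with rfl | hb
        · exact absurd (by simp) h3
        · exact hb
      have hp0 : (p : ℚ) ≠ 0 := by exact_mod_cast hp.ne_zero
      refine ih b ?_ (hs _ p ?_ hp0) ?_ fun k => h3 (k.mul_left _)
      · have : 1 < p ^ 4 := Nat.one_lt_pow (by norm_num) hp.one_lt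
        nlinarith
      · convert h1 using 1
        push_cast
        ring
      · rcases (Nat.Prime.dvd_mul hl).1 h2 with k | k
        · have : l = p := (Nat.prime_dvd_prime_iff_eq hl hp).1 (hl.dvd_of_dvd_pow k)
          subst this
          exact absurd ((pow_dvd_pow l (by norm_num)).mul_right b) h3
        · exact k
  obtain ⟨b, r1, r5, r6⟩ := red a' g1 g2 g3
  have hb : 1 ≤ b := by
    rcases Nat.eq_zero_or_pos b with rfl | hb
    · exact absurd (by simpa using r1) h0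
    · exact hb
  refine ⟨b, ⟨hb, r1, r6⟩, ?_⟩
  have := Nat.le_of_dvd hb r5
  omega

theorem mem_CQ {a Q : ℕ} (hQ : 1 ≤ Q) (ha : 1 ≤ a) (h0 : Good a) (h1 : Good (a * Q))
    (h2 : Good (a * (Q : ℚ) ^ 2)) (h3 : Good (a * (Q : ℚ) ^ 3)) : a ∈ CQ Q := by
  refine ⟨ha, fun i => Good.rank_pos ?_⟩
  have hQ0 : (Q : ℚ) ^ (i / 4) ≠ 0 := by positivity
  have key : Good (a * (Q : ℚ) ^ (i % 4)) := by
    have : i % 4 < 4 := Nat.mod_lt _ (by norm_num)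
    interval_cases i % 4
    exacts [by simpa using h0, by simpa using h1, h2, h3]
  convert key.scale hQ0 using 1
  rw [← pow_mul, mul_assoc, ← pow_add]
  congr 2
  omega

/-- Six simultaneous good twists. -/
def Six (Q t : ℚ) : Prop := Good t ∧ Good (t * Q) ∧ Good (t * Q ^ 2) ∧ Good (t * Q ^ 3) ∧
  Good (8 * t) ∧ Good (8 * Q * t)

theorem six_family {Q k l : ℤ} (hl : Prime l) (h1 : l ∣ k ^ 4 + Q) (h0 : k ^ 4 + Q ≠ 0)
    (hQ : ¬l ∣ Q) (h2 : ¬l ∣ 2) (h3 : ¬l ∣ 3) :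
    ¬l ∣ 3 * (Q ^ 2 - 34 * Q * k ^ 4 + k ^ 8) ∧
    Six Q ((k ^ 4 + Q) * (3 * (Q ^ 2 - 34 * Q * k ^ 4 + k ^ 8)) : ℤ) := by
  have hk : ¬l ∣ k := fun e => hQ ((dvd_add_right (dvd_pow e (by norm_num))).1 h1)
  have nd : ∀ {x y : ℤ}, ¬l ∣ x → ¬l ∣ y → ¬l ∣ x * y := fun hx hy e =>
    (hl.dvd_or_dvd e).elim hx hy
  have np : ∀ {x : ℤ} (n : ℕ), ¬l ∣ x → ¬l ∣ x ^ n := fun n hx e => hx (hl.dvd_of_dvd_pow e)
  have sh : ∀ {x y : ℤ} (u : ℤ), ¬l ∣ y → x = y + (k ^ 4 + Q) * u → ¬l ∣ x := fun u hy e h =>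
    hy ((dvd_add_left (h1.mul_right u)).1 (e ▸ h))
  have hW : ¬l ∣ Q ^ 2 - 34 * Q * k ^ 4 + k ^ 8 :=
    sh (k ^ 4 - 35 * Q) (np 2 (nd (nd h2 h3) hQ)) (by ring)
  have hA : ¬l ∣ Q - 2 * k ^ 4 := sh (-2) (nd h3 hQ) (by ring)
  have hB : ¬l ∣ k ^ 4 - 2 * Q := sh (-2) (nd h3 (np 4 hk)) (by ring)
  have z : ∀ {x : ℤ}, ¬l ∣ x → x ≠ 0 := fun h e => h (e ▸ dvd_zero l)
  have zq : ∀ {x : ℤ}, ¬l ∣ x → (x : ℚ) ≠ 0 := fun h => by exact_mod_cast z h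
  have k0 := z hk
  have Q0 := z hQ
  refine ⟨nd h3 hW, ?_, ?_, ?_, ?_, ?_, ?_⟩
  · exact (good_of_dvd (x := 48 * k ^ 4 * (k ^ 4 + Q)) (z := Q + 7 * k ^ 4) (by ring)
      (h1.mul_left _) (by positivity) hW).of_eq (zq (nd h2 hk)) (by push_cast; ring)
  · exact (good_of_dvd (x := 48 * Q * (k ^ 4 + Q)) (z := 7 * Q + k ^ 4) (by ring)
      (h1.mul_left _) (by positivity) hW).of_eq two_ne_zero (by push_cast; ring)
  · exact (good_of_dvd (x := 3888 * Q ^ 2 * k ^ 12 * (k ^ 4 + Q))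
      (z := Q ^ 3 - 21 * Q ^ 2 * k ^ 4 - 72 * Q * k ^ 8 + 4 * k ^ 12) (by ring)
      (h1.mul_left _) (by positivity) (nd (np 4 hA) hW)).of_eq
      (zq (nd (nd (nd h2 h3) (np 3 hk)) hA)) (by push_cast; ring)
  · exact (good_of_dvd (x := 3888 * Q ^ 3 * k ^ 8 * (k ^ 4 + Q))
      (z := 4 * Q ^ 3 - 72 * Q ^ 2 * k ^ 4 - 21 * Q * k ^ 8 + k ^ 12) (by ring)
      (h1.mul_left _) (by positivity) (nd (np 4 hB) hW)).of_eq
      (zq (nd (nd (nd h2 h3) (np 2 hk)) hB)) (by push_cast; ring)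
  · exact (good_of_dvd (x := 24 * k ^ 4 * (k ^ 4 + Q)) (z := Q - 5 * k ^ 4) (by ring)
      (h1.mul_left _) (by positivity) hW).of_eq (zq hk) (by push_cast; ring)
  · exact (good_of_dvd (x := 24 * Q * (k ^ 4 + Q)) (z := 5 * Q - k ^ 4) (by ring)
      (h1.mul_left _) (by positivity) hW).of_eq one_ne_zero (by push_cast; ring)

theorem not_dvd_of_lt {l n : ℕ} (h0 : 0 < n) (h : n < l) : ¬(l : ℤ) ∣ n := fun e =>
  absurd (Nat.le_of_dvd h0 (Int.natCast_dvd_natCast.1 e)) (not_le.2 h)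

theorem six_infinite (Q : ℕ) (hQ : 1 ≤ Q) :
    {a : ℕ | 1 ≤ a ∧ Six Q a ∧ ∀ p : ℕ, p.Prime → ¬p ^ 4 ∣ a}.Infinite := by
  refine infinite_of_primes (fun h => h.1.1 rfl) ?_ ?_ fun B => ?_
  · rintro t ⟨h1, h2, h3, h4, h5, h6⟩
    exact ⟨h1.isog, by convert h2.isog using 1; ring, by convert h3.isog using 1; ring,
      by convert h4.isog using 1; ring, by convert h5.isog using 1; ring,
      by convert h6.isog using 1; ring⟩
  · rintro t c ⟨h1, h2, h3, h4, h5, h6⟩ hc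
    exact ⟨h1.of_eq hc rfl, h2.of_eq hc (by ring), h3.of_eq hc (by ring), h4.of_eq hc (by ring),
      h5.of_eq hc (by ring), h6.of_eq hc (by ring)⟩
  obtain ⟨l, k, hl, hB, h1, h2⟩ := exists_prime Q (B + Q + 3) hQ
  have hp : Prime (l : ℤ) := Nat.prime_iff_prime_int.1 hl
  obtain ⟨h3, h4⟩ := six_family hp h1 (fun e => h2 (e ▸ dvd_zero _))
    (not_dvd_of_lt hQ (by omega)) (not_dvd_of_lt (n := 2) (by norm_num) (by omega))
    (not_dvd_of_lt (n := 3) (by norm_num) (by omega))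
  exact ⟨l, _, hl, by omega, by exact_mod_cast h4, h1.mul_right _,
    fun e => h2 (hp.pow_dvd_of_dvd_mul_right 2 h3 e)⟩

theorem six_main (Q : ℕ) (hQ : 1 ≤ Q) :
    {a : ℕ | a ∈ CQ Q ∧ 0 < Module.rank ℤ (curve (8 * (a : ℚ))).toAffine.Point ∧
      0 < Module.rank ℤ (curve (8 * (Q : ℚ) * a)).toAffine.Point ∧
      (∀ S : ℕ, Q = 2 * S ^ 2 → a ∈ CQ (S ^ 2)) ∧
      ∀ p : ℕ, p.Prime → ¬p ^ 4 ∣ a}.Infinite := by
  refine (six_infinite Q hQ).mono ?_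
  rintro a ⟨ha, ⟨h1, h2, h3, h4, h5, h6⟩, h7⟩
  refine ⟨mem_CQ hQ ha h1 h2 h3 h4, h5.rank_pos, h6.rank_pos, ?_, h7⟩
  rintro S rfl
  have hS : 1 ≤ S := by
    rcases Nat.eq_zero_or_pos S with rfl | h
    · simp at hQ
    · exact h
  exact h1.pow_rank hS (h6.of_eq two_ne_zero (by push_cast; ring)) ha

end Pool.Agent.Lib.MP_90cf6f_nt
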